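import Pool.Agent.T6.H79.SX.Crit

/-!
# The converse
-/

set_option autoImplicit false

namespace Pool.Agent.T6.H79.SX

open Finset hiding val
open Filter

/-- exponentials beat powers -/
theorem pow_lt_two_pow (k : ℕ) : ∃ x₀ : ℕ, ∀ x : ℕ, x₀ ≤ x → x ^ k < 2 ^ x := by
  have h := tendsto_pow_const_div_const_pow_of_one_lt k (by norm_num : (1 : ℝ) < 2)
  have h2 := (h.eventually (gt_mem_nhds (by norm_num : (0 : ℝ) < 1)))
  obtain ⟨x₀, hx₀⟩ := eventually_atTop.1 h2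
  refine ⟨x₀, fun x hx => ?_⟩
  have h3 := hx₀ x hx
  rw [div_lt_one (by positivity)] at h3
  exact_mod_cast h3

/-- close powers: if `s` is within `exp (-w ^ A)` of `u / w` then the `w`-th powers of the integers up
to `2 ^ (w A)` have `s`-th powers which are very close to integers -/
theorem close_powers {s : ℝ} (hs : 0 < s) (κ : ℕ) : ∃ A₀ : ℕ, ∀ A : ℕ, A₀ ≤ A → ∀ (w : ℕ) (u : ℤ),
    2 ≤ w → |s - u / w| < Real.exp (-(w : ℝ) ^ A) →
    2 ^ (w * A) ≤ (nearInt s κ (2 ^ (w ^ 2 * A))).card := by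
  classical
  obtain ⟨S, hS⟩ := exists_nat_gt (s + 5)
  obtain ⟨x₀, hx₀⟩ := pow_lt_two_pow (κ + 3)
  obtain ⟨r, hr⟩ := exists_nat_gt (1 / s)
  obtain ⟨E, hE⟩ : ∃ E : ℕ, E = 2 ^ (2 * κ + 3) := ⟨_, rfl⟩
  have hE1 : 1 ≤ E := by rw [hE]; exact Nat.one_le_two_pow
  refine ⟨max x₀ (max r (S + E + 4 * κ + 10)), fun A hA w u hw hclose => ?_⟩
  have hA1 : x₀ ≤ A := (le_max_left _ _).trans hA
  have hA2 : r ≤ A := (le_max_left _ _).trans ((le_max_right _ _).trans hA)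
  have hA3 : S + E + 4 * κ + 10 ≤ A := (le_max_right _ _).trans ((le_max_right _ _).trans hA)
  have hw0 : (0 : ℝ) < w := by exact_mod_cast (by omega : 0 < w)
  have hw2 : (2 : ℝ) ≤ w := by exact_mod_cast hw
  have hw1 : (1 : ℝ) ≤ w := by linarith
  -- the main numerical inequality
  have hnum : ((w : ℝ) ^ 2 * A) ^ κ + (S : ℝ) * ((w : ℝ) ^ 2 * A) ≤ (w : ℝ) ^ A := by
    have h1 : (S + 1) * A ^ (κ + 1) * w ^ (2 * κ + 2) ≤ w ^ A := by
      have h2 : 2 ^ (2 * κ + 3) * ((S + 1) * A ^ (κ + 1)) ≤ 2 ^ A := by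
        rw [← hE]
        calc E * ((S + 1) * A ^ (κ + 1)) ≤ A * (A * A ^ (κ + 1)) :=
              Nat.mul_le_mul (by omega) (Nat.mul_le_mul_right _ (by omega))
          _ = A ^ (κ + 3) := by ring
          _ ≤ 2 ^ A := (hx₀ A hA1).le
      have hAk : 2 * κ + 2 ≤ A := by omega
      have h3 : (S + 1) * A ^ (κ + 1) ≤ 2 ^ (A - (2 * κ + 2)) := by
        have e : 2 ^ A = 2 ^ (2 * κ + 2) * 2 ^ (A - (2 * κ + 2)) := by
          rw [← pow_add]; congr 1; omega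
        rw [e] at h2
        have e2 : 2 ^ (2 * κ + 3) * ((S + 1) * A ^ (κ + 1)) =
            2 ^ (2 * κ + 2) * (2 * ((S + 1) * A ^ (κ + 1))) := by rw [pow_succ]; ring
        rw [e2] at h2
        have := Nat.le_of_mul_le_mul_left h2 (by positivity)
        omega
      calc (S + 1) * A ^ (κ + 1) * w ^ (2 * κ + 2) ≤ 2 ^ (A - (2 * κ + 2)) * w ^ (2 * κ + 2) :=
            Nat.mul_le_mul_right _ h3
        _ ≤ w ^ (A - (2 * κ + 2)) * w ^ (2 * κ + 2) :=
            Nat.mul_le_mul_right _ (Nat.pow_le_pow_left hw _)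
        _ = w ^ A := by rw [← pow_add]; congr 1; omega
    have h1' : ((S : ℝ) + 1) * (A : ℝ) ^ (κ + 1) * (w : ℝ) ^ (2 * κ + 2) ≤ (w : ℝ) ^ A := by
      exact_mod_cast h1
    have hx1 : (1 : ℝ) ≤ (w : ℝ) ^ 2 * A := by
      have h4 : (1 : ℝ) ≤ (w : ℝ) ^ 2 := one_le_pow₀ hw1
      have h5 : (1 : ℝ) ≤ A := by exact_mod_cast (by omega : 1 ≤ A)
      nlinarith
    have h6 : ((w : ℝ) ^ 2 * A) ^ κ ≤ ((w : ℝ) ^ 2 * A) ^ (κ + 1) := pow_le_pow_right₀ hx1 (by omega)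
    have h7 : ((w : ℝ) ^ 2 * A) ≤ ((w : ℝ) ^ 2 * A) ^ (κ + 1) := le_self_pow₀ hx1 (by omega)
    have h8 : ((w : ℝ) ^ 2 * A) ^ (κ + 1) = (A : ℝ) ^ (κ + 1) * (w : ℝ) ^ (2 * κ + 2) := by
      rw [mul_pow, ← pow_mul, mul_comm]
      congr 2
    calc ((w : ℝ) ^ 2 * A) ^ κ + (S : ℝ) * ((w : ℝ) ^ 2 * A)
        ≤ ((w : ℝ) ^ 2 * A) ^ (κ + 1) + S * ((w : ℝ) ^ 2 * A) ^ (κ + 1) := by gcongr
      _ = ((S : ℝ) + 1) * (A : ℝ) ^ (κ + 1) * (w : ℝ) ^ (2 * κ + 2) := by rw [h8]; ring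
      _ ≤ _ := h1'
  set x : ℝ := (w : ℝ) ^ 2 * A with hx
  have hA0 : (0 : ℝ) < A := by exact_mod_cast (by omega : 0 < A)
  have hx0 : 0 < x := by positivity
  set ε : ℝ := Real.exp (-(w : ℝ) ^ A) with hε
  have hε0 : 0 < ε := Real.exp_pos _
  have hεx : ε ≤ Real.exp (-(x ^ κ + S * x)) := Real.exp_le_exp.2 (neg_le_neg hnum)
  have hS5 : s + 5 < S := hS
  have hxκ : 0 ≤ x ^ κ := by positivity
  -- `u` is positive
  have hclose' := abs_lt.1 hclose
  have hu : 0 < u := by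
    by_contra hle
    push Not at hle
    have h1 : (u : ℝ) ≤ 0 := by exact_mod_cast hle
    have h2 : (u : ℝ) / w ≤ 0 := div_nonpos_of_nonpos_of_nonneg h1 hw0.le
    have h3 : s < ε := by linarith
    have h4 : ε ≤ 1 / A := by
      have h5 : (A : ℝ) ≤ (w : ℝ) ^ A := by
        exact_mod_cast (Nat.lt_two_pow_self.le.trans (Nat.pow_le_pow_left hw A))
      rw [hε, Real.exp_neg, ← one_div]
      apply one_div_le_one_div_of_le hA0
      have := Real.add_one_le_exp ((w : ℝ) ^ A)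
      linarith
    have h5 : (1 : ℝ) / A ≤ s := by
      rw [div_le_iff₀ hA0]
      rw [div_lt_iff₀ hs] at hr
      have h6 : (r : ℝ) ≤ A := by exact_mod_cast hA2
      nlinarith
    linarith
  obtain ⟨t, rfl⟩ := Int.eq_ofNat_of_zero_le hu.le
  have ht0 : (0 : ℝ) < t := by exact_mod_cast hu
  have hd : |(w : ℝ) * s - t| ≤ w * ε := by
    have h1 : (w : ℝ) * s - t = w * (s - ((t : ℤ) : ℝ) / w) := by
      push_cast
      field_simp
    rw [h1, abs_mul, abs_of_pos hw0]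
    exact mul_le_mul_of_nonneg_left hclose.le hw0.le
  have hε1 : ε ≤ 1 := by
    rw [hε, Real.exp_le_one_iff]
    have : 0 ≤ (w : ℝ) ^ A := by positivity
    linarith
  have htw : (t : ℝ) ≤ w * (s + 1) := by
    have := abs_le.1 hd
    nlinarith
  -- the map
  have hinj : Set.InjOn (fun m : ℕ => m ^ w) (Finset.Icc 1 (2 ^ (w * A)) : Set ℕ) := by
    intro a _ b _ hab
    exact Nat.pow_left_injective (by omega) hab
  have hcard : (Finset.Icc 1 (2 ^ (w * A))).card = 2 ^ (w * A) := by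
    rw [Nat.card_Icc, Nat.add_sub_cancel]
  rw [← hcard, ← Finset.card_image_of_injOn hinj]
  refine Finset.card_le_card ?_
  intro n hn
  rw [Finset.mem_image] at hn
  obtain ⟨m, hm, rfl⟩ := hn
  rw [Finset.mem_Icc] at hm
  obtain ⟨hm1, hm2⟩ := hm
  have hm0 : (0 : ℝ) < m := by exact_mod_cast hm1
  have hm1R : (1 : ℝ) ≤ m := by exact_mod_cast hm1
  have hlogm0 : 0 ≤ Real.log m := Real.log_nonneg hm1R
  have hlogm : Real.log m ≤ w * A := by
    have h1 : (m : ℝ) ≤ 2 ^ (w * A) := by exact_mod_cast hm2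
    have h2 := Real.log_le_log hm0 h1
    rw [Real.log_pow] at h2
    push_cast at h2
    have h3 := Real.log_two_lt_d9
    have h4 : (0 : ℝ) ≤ w * A := by positivity
    nlinarith
  rw [nearInt, Finset.mem_filter, Finset.mem_Icc]
  refine ⟨⟨Nat.one_le_pow _ _ hm1, ?_⟩, ((m ^ t : ℕ) : ℤ), ?_⟩
  · calc m ^ w ≤ (2 ^ (w * A)) ^ w := Nat.pow_le_pow_left hm2 w
      _ = _ := by rw [← pow_mul]; congr 1; ring
  · have hN : Real.log ((2 ^ (w ^ 2 * A) : ℕ) : ℝ) ≤ x := by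
      push_cast
      rw [Real.log_pow]
      push_cast
      have h3 := Real.log_two_lt_d9
      have h4 : x * Real.log 2 ≤ x * 1 := mul_le_mul_of_nonneg_left (by linarith) hx0.le
      linarith
    have hN0 : 0 ≤ Real.log ((2 ^ (w ^ 2 * A) : ℕ) : ℝ) := Real.log_natCast_nonneg _
    have hgoal : Real.exp (-(x ^ κ)) ≤ Real.exp (-(Real.log ((2 ^ (w ^ 2 * A) : ℕ) : ℝ)) ^ κ) :=
      Real.exp_le_exp.2 (neg_le_neg (pow_le_pow_left₀ hN0 hN κ))
    refine le_trans ?_ hgoal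
    set y : ℝ := ((w : ℝ) * s - t) * Real.log m with hy
    have hyb : |y| ≤ x * ε := by
      rw [hy, abs_mul, abs_of_nonneg hlogm0]
      calc |(w : ℝ) * s - t| * Real.log m ≤ (w * ε) * (w * A) :=
            mul_le_mul hd hlogm hlogm0 (by positivity)
        _ = x * ε := by rw [hx]; ring
    have hxe : x * ε ≤ 1 := by
      have h1 : ε ≤ Real.exp (-x) := by
        refine hεx.trans (Real.exp_le_exp.2 (neg_le_neg ?_))
        nlinarith
      have h2 : x ≤ Real.exp x := by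
        have := Real.add_one_le_exp x
        linarith
      calc x * ε ≤ Real.exp x * Real.exp (-x) := by gcongr
        _ = 1 := by rw [← Real.exp_add, add_neg_cancel, Real.exp_zero]
    have e1 : (((m ^ w : ℕ) : ℝ)) ^ s - (((m ^ t : ℕ) : ℤ) : ℝ) = (m : ℝ) ^ t * (Real.exp y - 1) := by
      push_cast
      rw [← Real.rpow_natCast (m : ℝ) w, ← Real.rpow_mul hm0.le, mul_sub, mul_one]
      congr 1
      rw [← Real.rpow_natCast (m : ℝ) t, Real.rpow_def_of_pos hm0, Real.rpow_def_of_pos hm0,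
        ← Real.exp_add]
      congr 1
      rw [hy]
      ring
    rw [e1, abs_mul, abs_of_pos (by positivity : (0 : ℝ) < (m : ℝ) ^ t)]
    have h1 : |Real.exp y - 1| ≤ 2 * |y| := Real.abs_exp_sub_one_le (hyb.trans hxe)
    have h2 : (m : ℝ) ^ t ≤ Real.exp (x * (s + 1)) := by
      have e2 : (m : ℝ) ^ t = Real.exp (t * Real.log m) := by
        rw [Real.exp_nat_mul, Real.exp_log hm0]
      rw [e2]
      refine Real.exp_le_exp.2 ?_
      calc (t : ℝ) * Real.log m ≤ (w * (s + 1)) * (w * A) := mul_le_mul htw hlogm hlogm0 (by positivity)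
        _ = x * (s + 1) := by rw [hx]; ring
    have h3 : 2 * x ≤ Real.exp (2 * x) := by
      have := Real.add_one_le_exp (2 * x)
      linarith
    calc (m : ℝ) ^ t * |Real.exp y - 1| ≤ Real.exp (x * (s + 1)) * (2 * (x * ε)) := by
          refine mul_le_mul h2 (h1.trans ?_) (abs_nonneg _) (Real.exp_pos _).le
          linarith
      _ = Real.exp (x * (s + 1)) * (2 * x) * ε := by ring
      _ ≤ Real.exp (x * (s + 1)) * Real.exp (2 * x) * Real.exp (-(x ^ κ + S * x)) := by gcongr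
      _ = Real.exp (x * (s + 1) + 2 * x + -(x ^ κ + S * x)) := by
          rw [← Real.exp_add, ← Real.exp_add]
      _ ≤ Real.exp (-(x ^ κ)) := by
          refine Real.exp_le_exp.2 ?_
          nlinarith

/-- `(d) ⇒ (a)` -/
theorem dio_of_count {s : ℝ} (hs : 0 < s) {κ B N₀ : ℕ}
    (h : ∀ N : ℕ, N₀ ≤ N → ((nearInt s κ N).card : ℝ) ≤ (Real.log N) ^ B) : Dio s := by
  by_contra hcon
  unfold Dio at hcon
  push Not at hcon
  obtain ⟨A₀, hA₀⟩ := close_powers hs κ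
  obtain ⟨x₀, hx₀⟩ := pow_lt_two_pow (2 * B)
  set A := max A₀ (max x₀ (N₀ + 1)) with hA
  obtain ⟨w, hw, u, hwu⟩ := hcon A
  have hA1 : A₀ ≤ A := le_max_left _ _
  have hA2 : x₀ ≤ A := (le_max_left _ _).trans (le_max_right _ _)
  have hA3 : N₀ + 1 ≤ A := (le_max_right _ _).trans (le_max_right _ _)
  have h1 := hA₀ A hA1 w u hw hwu
  have hwA : A ≤ w * A := Nat.le_mul_of_pos_left _ (by omega)
  have hwA2 : A ≤ w ^ 2 * A := Nat.le_mul_of_pos_left _ (by positivity)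
  have h2 := h (2 ^ (w ^ 2 * A)) (by
    have : w ^ 2 * A < 2 ^ (w ^ 2 * A) := Nat.lt_two_pow_self
    omega)
  have h3 : Real.log ((2 ^ (w ^ 2 * A) : ℕ) : ℝ) ≤ (w : ℝ) ^ 2 * A := by
    push_cast
    rw [Real.log_pow]
    push_cast
    have h3 := Real.log_two_lt_d9
    have h4 : (0 : ℝ) ≤ (w : ℝ) ^ 2 * A := by positivity
    nlinarith
  have h4 : ((2 ^ (w * A) : ℕ) : ℝ) ≤ ((w : ℝ) ^ 2 * A) ^ B :=
    le_trans (by exact_mod_cast h1) (h2.trans (pow_le_pow_left₀ (Real.log_natCast_nonneg _) h3 B))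
  have h5 : 2 ^ (w * A) ≤ (w ^ 2 * A) ^ B := by exact_mod_cast h4
  have h6 : (w ^ 2 * A) ^ B ≤ (w * A) ^ (2 * B) := by
    rw [pow_mul]
    refine Nat.pow_le_pow_left ?_ B
    have : 1 ≤ A := by omega
    nlinarith [Nat.mul_le_mul_left (w ^ 2 * A) this]
  have h7 := hx₀ (w * A) (by omega)
  omega

end Pool.Agent.T6.H79.SX
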