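import Pool.Agent.T6.H79.SX.Quant
import Pool.Agent.R347.LW.QuantE

/-!
# Four integers `n` for which `ξ n ^ s` is close to an algebraic number
-/

set_option autoImplicit false

namespace Pool.Agent.T6.H79.SX

open Finset hiding val
open Complex
open Pool.Agent.R347.SX (cf)
open Pool.Agent.R347.LW (RB common_field)
open Pool.Agent.R347.GS (DI DI.mono DI.mul DI.pow DI.add DI.int DI.sum)

/-! ## Polynomial bounds -/

/-- bounded by a power -/
def PB (f : ℕ → ℕ) : Prop := ∃ K : ℕ, ∀ Y : ℕ, 2 ≤ Y → f Y ≤ Y ^ K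

theorem PB.const (c : ℕ) : PB fun _ => c :=
  ⟨c, fun Y hY => Nat.lt_two_pow_self.le.trans (Nat.pow_le_pow_left hY c)⟩

theorem PB.id : PB fun Y => Y := ⟨1, fun Y _ => by rw [pow_one]⟩

theorem PB.add {f g : ℕ → ℕ} (hf : PB f) (hg : PB g) : PB fun Y => f Y + g Y := by
  obtain ⟨a, ha⟩ := hf
  obtain ⟨b, hb⟩ := hg
  refine ⟨max a b + 1, fun Y hY => ?_⟩
  have h1 := (ha Y hY).trans (Nat.pow_le_pow_right (by omega) (le_max_left a b))
  have h2 := (hb Y hY).trans (Nat.pow_le_pow_right (by omega) (le_max_right a b))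
  calc f Y + g Y ≤ Y ^ max a b + Y ^ max a b := add_le_add h1 h2
    _ = 2 * Y ^ max a b := by ring
    _ ≤ Y * Y ^ max a b := Nat.mul_le_mul_right _ hY
    _ = _ := by ring

theorem PB.mul {f g : ℕ → ℕ} (hf : PB f) (hg : PB g) : PB fun Y => f Y * g Y := by
  obtain ⟨a, ha⟩ := hf
  obtain ⟨b, hb⟩ := hg
  exact ⟨a + b, fun Y hY => (Nat.mul_le_mul (ha Y hY) (hb Y hY)).trans (by rw [pow_add])⟩

theorem PB.pow {f : ℕ → ℕ} (hf : PB f) (n : ℕ) : PB fun Y => f Y ^ n := by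
  obtain ⟨a, ha⟩ := hf
  exact ⟨a * n, fun Y hY => (Nat.pow_le_pow_left (ha Y hY) n).trans (by rw [pow_mul])⟩

theorem PB_ss : PB ss := (PB.const 4096).mul (PB.id.pow 4)
theorem PB_DD : PB DD :=
  (((PB.const 4).mul ((PB.id.add (PB.const 2)).pow 2)).mul (PB_ss.pow 3))
theorem PB_SS : PB SS := ((PB.const 2).mul (PB.id.add (PB.const 2))).mul (PB_ss.pow 2)
theorem PB_Tf : PB Tf := ((PB.const 16).mul (PB_DD.pow 6)).add (PB.const 1)
theorem PB_tt : PB tt := (PB.const 320).mul PB.id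
theorem PB_gam {T : ℕ → ℕ} (hT : PB T) : PB fun Y => gam Y (T Y) :=
  (((PB.const 20).mul (PB.id.pow 2)).mul PB_DD).mul hT
theorem PB_hh {T : ℕ → ℕ} (hT : PB T) : PB fun Y => hh Y (T Y) :=
  (((PB.const 6).mul PB.id).mul hT).mul PB_DD
theorem PB_EE : PB EE :=
  ((((PB.const 3).add PB_tt).add (PB_gam PB_SS)).add
    ((PB.id.pow 2).mul (((PB.const 6).mul PB_SS).mul PB_DD))).add
    (PB.id.mul (PB_tt.add (PB_hh PB_SS)))
theorem PB_lam {T : ℕ → ℕ} (hT : PB T) : PB fun Y => lam Y (T Y) :=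
  PB.id.mul ((PB.id.mul (((PB.const 6).mul hT).mul PB_DD)).add ((PB_tt.add PB_EE).add (PB_hh hT)))
theorem PB_VB : PB VB :=
  ((((PB.const 4).mul (((PB_DD.mul (PB.id.pow 2)).mul PB_Tf).add (PB.const 1))).mul PB_Tf).add
    PB_Tf).add PB_DD
theorem PB_PP {v : ℕ → ℕ} (hv : PB v) : PB fun Y => PP Y (v Y) :=
  ((((PB.const 10).add ((PB.const 4).mul PB_tt)).add PB_EE).add
    (((((PB.const 4).add PB.id).add PB_tt).add hv).mul (PB_Tf.pow 3))).add (PB_lam PB_Tf)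
theorem PB_QQ : PB QQ :=
  ((PB.const 3).add ((PB.const 2).mul PB_tt)).add
    ((((PB.const 2).mul (PB.id.pow 2)).add ((PB.const 2).mul PB.id)).mul
      ((PB.const 6).mul (PB_Tf.mul PB_DD)))

/-- the precision -/
def vv (A Y : ℕ) : ℕ := 6 * VB Y * Y + 2 * (Y * VB Y) ^ A + 1

/-- the exponent -/
def LL (A Y : ℕ) : ℕ := PP Y (vv A Y) + QQ Y + (3 * Y + 8)

theorem PB_LL (A : ℕ) : PB (LL A) :=
  ((PB_PP ((((PB.const 6).mul PB_VB).mul PB.id).add ((PB.const 2).mul ((PB.id.mul PB_VB).pow A))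
    |>.add (PB.const 1))).add PB_QQ).add (((PB.const 3).mul PB.id).add (PB.const 8))

/-! ## Auxiliary facts -/

theorem RB_inv {d Q : ℕ} {a : ℂ} (h : RB d Q a) (ha : a ≠ 0) : RB d Q a⁻¹ := by
  obtain ⟨P, hP, hd, hc, hz⟩ := h
  refine ⟨P.reverse, ?_, (Polynomial.reverse_natDegree_le P).trans hd, fun n => ?_, ?_⟩
  · rwa [Ne, Polynomial.reverse_eq_zero]
  · rw [Polynomial.coeff_reverse]
    exact hc _
  · letI := invertibleOfNonzero ha
    have h1 := (Polynomial.eval₂_reverse_eq_zero_iff (algebraMap ℤ ℂ) a P).2 hz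
    rwa [invOf_eq_inv] at h1

/-- a lower bound for the logarithm of a rational number -/
theorem log_lower {a b : ℕ} (ha : 1 ≤ a) (hb : 1 ≤ b) (hab : a ≠ b) (M : ℝ) (haM : (a : ℝ) ≤ M)
    (hbM : (b : ℝ) ≤ M) : 1 / M ≤ |Real.log a - Real.log b| := by
  have key : ∀ x y : ℕ, 1 ≤ x → x < y → (y : ℝ) ≤ M → 1 / M ≤ Real.log y - Real.log x := by
    intro x y hx hxy hyM
    have hx0 : (0 : ℝ) < x := by exact_mod_cast hx
    have hy0 : (0 : ℝ) < y := by exact_mod_cast (by omega : 0 < y)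
    have h1 : Real.log ((x : ℝ) / y) ≤ x / y - 1 := Real.log_le_sub_one_of_pos (by positivity)
    rw [Real.log_div hx0.ne' hy0.ne'] at h1
    have h2 : (x : ℝ) + 1 ≤ y := by exact_mod_cast hxy
    have h3 : 1 / M ≤ 1 / (y : ℝ) := one_div_le_one_div_of_le hy0 hyM
    have h4 : 1 / (y : ℝ) ≤ 1 - x / y := by
      rw [div_le_iff₀ hy0, sub_mul, one_mul, div_mul_cancel₀ _ hy0.ne']
      linarith
    linarith
  rcases lt_or_gt_of_ne hab with h | h
  · have := key a b ha h hbM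
    rw [abs_sub_comm]
    exact this.trans (le_abs_self _)
  · have := key b a hb h haM
    exact this.trans (le_abs_self _)

/-- a lower bound for integer combinations of logarithms of integers -/
theorem comb_lower {N B : ℕ} (n0 : ℕ) (n : Fin 3 → ℕ) (hn0 : 1 ≤ n0 ∧ n0 ≤ N)
    (hn : ∀ m, 1 ≤ n m ∧ n m ≤ N) (c : Fin 3 → ℤ) (hc : ∀ m, |c m| ≤ B)
    (hne : ∑ m, (c m : ℝ) * (Real.log (n m) - Real.log n0) ≠ 0) :
    ((N : ℝ) ^ (6 * B))⁻¹ ≤ |∑ m, (c m : ℝ) * (Real.log (n m) - Real.log n0)| := by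
  set a : ℕ := ∏ m, (n m ^ (c m).toNat * n0 ^ (-c m).toNat) with ha
  set b : ℕ := ∏ m, (n m ^ (-c m).toNat * n0 ^ (c m).toNat) with hb
  have hN1 : 1 ≤ N := hn0.1.trans hn0.2
  have pos : ∀ e f : Fin 3 → ℕ, 1 ≤ ∏ m, (n m ^ e m * n0 ^ f m) := fun e f =>
    Nat.one_le_iff_ne_zero.2 (Finset.prod_ne_zero_iff.2 fun m _ =>
      mul_ne_zero (pow_ne_zero _ (by have := (hn m).1; omega)) (pow_ne_zero _ (by omega)))
  have hle : ∀ e f : Fin 3 → ℕ, (∀ m, e m ≤ B) → (∀ m, f m ≤ B) →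
      ((∏ m, (n m ^ e m * n0 ^ f m) : ℕ) : ℝ) ≤ (N : ℝ) ^ (6 * B) := by
    intro e f he hf
    have h1 : ∏ m, (n m ^ e m * n0 ^ f m) ≤ ∏ _m : Fin 3, (N ^ B * N ^ B) := by
      refine Finset.prod_le_prod' fun m _ => Nat.mul_le_mul ?_ ?_
      · exact (Nat.pow_le_pow_left (hn m).2 _).trans (Nat.pow_le_pow_right hN1 (he m))
      · exact (Nat.pow_le_pow_left hn0.2 _).trans (Nat.pow_le_pow_right hN1 (hf m))
    rw [Finset.prod_const, Finset.card_univ, Fintype.card_fin, ← pow_add, ← pow_mul] at h1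
    have h2 : (B + B) * 3 = 6 * B := by ring
    rw [h2] at h1
    exact_mod_cast h1
  have hlog : ∀ e f : Fin 3 → ℕ, Real.log ((∏ m, (n m ^ e m * n0 ^ f m) : ℕ) : ℝ) =
      ∑ m, (e m * Real.log (n m) + f m * Real.log n0) := by
    intro e f
    push_cast
    rw [Real.log_prod (fun m _ => by
      have h1 : (n m : ℝ) ≠ 0 := by have := (hn m).1; exact_mod_cast (by omega : n m ≠ 0)
      have h2 : (n0 : ℝ) ≠ 0 := by exact_mod_cast (by omega : n0 ≠ 0)
      positivity)]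
    refine Finset.sum_congr rfl fun m _ => ?_
    have h1 : (n m : ℝ) ≠ 0 := by have := (hn m).1; exact_mod_cast (by omega : n m ≠ 0)
    have h2 : (n0 : ℝ) ≠ 0 := by exact_mod_cast (by omega : n0 ≠ 0)
    rw [Real.log_mul (pow_ne_zero _ h1) (pow_ne_zero _ h2), Real.log_pow, Real.log_pow]
  have hdiff : ∑ m, (c m : ℝ) * (Real.log (n m) - Real.log n0) = Real.log a - Real.log b := by
    rw [ha, hb, hlog, hlog, ← Finset.sum_sub_distrib]
    refine Finset.sum_congr rfl fun m _ => ?_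
    have h1 : (c m : ℝ) = ((c m).toNat : ℝ) - ((-c m).toNat : ℝ) := by
      have : c m = ((c m).toNat : ℤ) - ((-c m).toNat : ℤ) := by omega
      exact_mod_cast this
    rw [h1]
    ring
  rw [hdiff] at hne ⊢
  have hab : a ≠ b := by
    rintro h
    exact hne (by rw [h, sub_self])
  have hca : ∀ m, (c m).toNat ≤ B := fun m => by have := abs_le.1 (hc m); omega
  have hcb : ∀ m, (-c m).toNat ≤ B := fun m => by have := abs_le.1 (hc m); omega
  have h1 := log_lower (pos _ _) (pos _ _) hab ((N : ℝ) ^ (6 * B)) (hle _ _ hca hcb) (hle _ _ hcb hca)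
  rwa [one_div] at h1

end Pool.Agent.T6.H79.SX
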