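import Pool.Agent.T6.H79.SX.Scale
import Pool.Agent.H43R2.Cplx.EMeas
import Pool.Agent.H326R2.Pi.Top

/-!
# The Diophantine criterion
-/

set_option autoImplicit false

namespace Pool.Agent.T6.H79.SX

open Finset hiding val
open Filter
open Pool.Agent.R347.LW (RB)

/-- `s` is not extremely close to rational numbers: `|s - u / w| ≥ exp (-w ^ A)` for some `A` and all
integers `w ≥ 2` and `u` -/
def Dio (s : ℝ) : Prop := ∃ A : ℕ, ∀ w : ℕ, 2 ≤ w → ∀ u : ℤ, Real.exp (-(w : ℝ) ^ A) ≤ |s - u / w|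

theorem dio_of_poly {s : ℝ} (k n : ℕ) (h : ∀ w : ℕ, 2 ≤ w → ∀ u : ℤ,
    (((k : ℝ) * w) ^ n)⁻¹ ≤ |s - u / w|) (hk : 1 ≤ k) : Dio s := by
  refine ⟨n * k + 1, fun w hw u => le_trans ?_ (h w hw u)⟩
  rw [Real.exp_neg]
  have hw0 : (0 : ℝ) < w := by exact_mod_cast (by omega : 0 < w)
  have hk0 : (0 : ℝ) < k := by exact_mod_cast hk
  refine inv_anti₀ (by positivity) ?_
  have h1 : ((k : ℝ) * w) ≤ Real.exp (k * w) := by
    have := Real.add_one_le_exp ((k : ℝ) * w)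
    linarith
  calc ((k : ℝ) * w) ^ n ≤ Real.exp (k * w) ^ n := pow_le_pow_left₀ (by positivity) h1 n
    _ = Real.exp (n * (k * w)) := by rw [← Real.exp_nat_mul]
    _ ≤ Real.exp ((w : ℝ) ^ (n * k + 1)) := by
        refine Real.exp_le_exp.2 ?_
        have h2 : n * k ≤ w ^ (n * k) := Nat.lt_two_pow_self.le.trans (Nat.pow_le_pow_left hw _)
        have h3 : ((n : ℝ) * k) ≤ (w : ℝ) ^ (n * k) := by exact_mod_cast h2
        rw [pow_succ, ← mul_assoc]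
        exact mul_le_mul_of_nonneg_right h3 hw0.le

theorem poly_pi : ∃ k : ℕ, 1 ≤ k ∧ ∀ w : ℕ, 1 ≤ w → ∀ u : ℤ,
    (((k : ℝ) * w) ^ 7)⁻¹ ≤ |Real.pi - u / w| := by
  obtain ⟨q0, hq0⟩ := Pool.Agent.H326R2.Pi.main
  refine ⟨q0 + 1, by omega, fun w hw u => ?_⟩
  have hw0 : (0 : ℝ) < w := by exact_mod_cast hw
  have h1 := hq0 ((q0 + 1) * w) (by nlinarith) ((q0 + 1) * u)
  have e1 : (((q0 + 1 : ℤ) * u : ℤ) : ℝ) / (((q0 + 1) * w : ℕ) : ℝ) = u / w := by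
    push_cast
    rw [mul_div_mul_left]
    positivity
  rw [e1] at h1
  refine le_trans ?_ h1
  have h2 : (1 : ℝ) ≤ (((q0 + 1) * w : ℕ) : ℝ) := by exact_mod_cast (by nlinarith : 1 ≤ (q0 + 1) * w)
  rw [Real.rpow_neg (by linarith)]
  push_cast at h2 ⊢
  refine inv_anti₀ (Real.rpow_pos_of_pos (by linarith) _) ?_
  rw [← Real.rpow_natCast]
  exact Real.rpow_le_rpow_of_exponent_le h2 (by norm_num)

theorem poly_e : ∃ k : ℕ, 1 ≤ k ∧ ∀ w : ℕ, 1 ≤ w → ∀ u : ℤ,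
    (((k : ℝ) * w) ^ 3)⁻¹ ≤ |Real.exp 1 - u / w| := by
  obtain ⟨c, hc, hm⟩ := Pool.Agent.H43R2.Cplx.EMeas.measure 1 one_pos
  obtain ⟨k, hk⟩ := exists_nat_gt (1 / c)
  have hk0 : (0 : ℝ) < k := lt_trans (by positivity) hk
  have hk1 : 1 ≤ k := by
    have : 0 < k := by exact_mod_cast hk0
    omega
  refine ⟨k, hk1, fun w hw u => ?_⟩
  have hw0 : (0 : ℝ) < w := by exact_mod_cast hw
  have h1 := hm w hw u
  have h2 : |(w : ℝ) * Real.exp 1 - u| = w * |Real.exp 1 - u / w| := by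
    rw [← abs_of_pos hw0, ← abs_mul, abs_of_pos hw0]
    congr 1
    field_simp
  rw [h2, show (1 : ℝ) + 1 = (2 : ℕ) by norm_num, Real.rpow_natCast] at h1
  have hk1R : (1 : ℝ) ≤ k := by exact_mod_cast hk1
  rw [inv_le_iff_one_le_mul₀ (by positivity)]
  have h3 : 1 ≤ k * c := by
    rw [div_lt_iff₀ hc] at hk
    exact hk.le
  have h4 : 0 ≤ |Real.exp 1 - u / w| := abs_nonneg _
  have h5 : (k : ℝ) ≤ k ^ 3 := le_self_pow₀ hk1R (by norm_num)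
  calc (1 : ℝ) ≤ k * c := h3
    _ ≤ k * ((w : ℝ) ^ 2 * (w * |Real.exp 1 - u / w|)) := by gcongr
    _ ≤ k ^ 3 * ((w : ℝ) ^ 2 * (w * |Real.exp 1 - u / w|)) := by gcongr
    _ = |Real.exp 1 - u / w| * (k * w) ^ 3 := by ring

theorem dio_pi : Dio Real.pi := by
  obtain ⟨k, hk, h⟩ := poly_pi
  exact dio_of_poly k 7 (fun w hw u => h w (by omega) u) hk

theorem dio_e : Dio (Real.exp 1) := by
  obtain ⟨k, hk, h⟩ := poly_e
  exact dio_of_poly k 3 (fun w hw u => h w (by omega) u) hk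

open Classical in
/-- `(a) ⇒ (b)` -/
theorem count_of_dio {s : ℝ} (hs : Dio s) : ∃ (κ : ℕ) (X₀ : ℝ), ∀ (N Q d : ℕ) (ξ : ℝ), 2 ≤ N → 2 ≤ Q →
    1 ≤ d → X₀ ≤ (d : ℝ) ^ d * Real.log (N * Q) → 0 < ξ →
    ((Finset.Icc 1 N).filter fun n : ℕ =>
      Near d Q (Real.exp (-((d : ℝ) ^ d * Real.log (N * Q)) ^ κ)) (ξ * (n : ℝ) ^ s)).card ≤
      (Nat.log 2 N + 1) ^ 2 := by
  obtain ⟨A, hA⟩ := hs
  obtain ⟨κ, hκ⟩ := scale (A + 1)
  set H : ℕ := ⌈|s|⌉₊ + 1 with hH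
  have hH1 : (1 : ℝ) ≤ H := by rw [hH]; push_cast; linarith [(Nat.cast_nonneg ⌈|s|⌉₊ : (0 : ℝ) ≤ _)]
  refine ⟨2 * κ, max 3200 H, fun N Q d ξ hN hQ hd hX hξ => ?_⟩
  set X := (d : ℝ) ^ d * Real.log (N * Q) with hXd
  have hX1 : 3200 ≤ X := (le_max_left _ _).trans hX
  have hX2 : (H : ℝ) ≤ X := (le_max_right _ _).trans hX
  have hXX : XX H N Q d = H * X := by rw [XX, hXd, mul_assoc]
  have h1 := hκ H N Q d s ξ (by omega) hN hQ hd (by rw [hXX]; nlinarith) ?_ ?_ hξ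
  · refine le_trans (Finset.card_le_card ?_) h1
    intro n hn
    rw [Finset.mem_filter] at hn ⊢
    refine ⟨hn.1, ?_⟩
    obtain ⟨α, h2, h3, h4⟩ := hn.2
    refine ⟨α, h2, h3, h4.trans (Real.exp_le_exp.2 (neg_le_neg ?_))⟩
    rw [hXX, pow_mul]
    refine pow_le_pow_left₀ (by positivity) ?_ κ
    nlinarith
  · have h2 : |s| ≤ H := by rw [hH]; push_cast; linarith [Nat.le_ceil |s|]
    exact h2.trans (le_self_pow₀ hH1 (by omega))
  · intro w hw u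
    refine le_trans (Real.exp_le_exp.2 (neg_le_neg ?_)) (hA w hw u)
    have hw1 : (1 : ℝ) ≤ w := by exact_mod_cast (by omega : 1 ≤ w)
    calc (w : ℝ) ^ A ≤ (w : ℝ) ^ (A + 1) := pow_le_pow_right₀ hw1 (by omega)
      _ ≤ (H * w) ^ (A + 1) := pow_le_pow_left₀ (by positivity) (le_mul_of_one_le_left (by positivity) hH1) _

open Classical in
/-- the integers `1 ≤ n ≤ N` such that `n ^ s` is within `exp (-(log N) ^ κ)` of an integer -/
noncomputable def nearInt (s : ℝ) (κ N : ℕ) : Finset ℕ :=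
  (Finset.Icc 1 N).filter fun n : ℕ => ∃ m : ℤ, |(n : ℝ) ^ s - m| ≤ Real.exp (-(Real.log N) ^ κ)

open Classical in
/-- `(b) ⇒ (c)` -/
theorem nearInt_of_count {s : ℝ} (hs0 : 0 < s) (hs : ∃ (κ : ℕ) (X₀ : ℝ), ∀ (N Q d : ℕ) (ξ : ℝ),
    2 ≤ N → 2 ≤ Q → 1 ≤ d → X₀ ≤ (d : ℝ) ^ d * Real.log (N * Q) → 0 < ξ →
    ((Finset.Icc 1 N).filter fun n : ℕ =>
      Near d Q (Real.exp (-((d : ℝ) ^ d * Real.log (N * Q)) ^ κ)) (ξ * (n : ℝ) ^ s)).card ≤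
      (Nat.log 2 N + 1) ^ 2) : ∃ κ N₀ : ℕ, ∀ N : ℕ, N₀ ≤ N →
    (nearInt s κ N).card ≤ (Nat.log 2 N + 1) ^ 2 := by
  obtain ⟨κ, X₀, hκ⟩ := hs
  set k : ℕ := ⌈s⌉₊ + 1 with hk
  set T : ℝ := max X₀ (((k + 1 : ℕ) : ℝ) ^ κ + 1) with hT
  refine ⟨κ + 1, ⌈Real.exp T⌉₊ + 2, fun N hN => ?_⟩
  have hNT : Real.exp T ≤ N := (Nat.le_ceil _).trans (by exact_mod_cast (by omega))
  have hN2 : 2 ≤ N := by omega
  have hN0 : (0 : ℝ) < N := by exact_mod_cast (by omega : 0 < N)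
  have hN1 : (1 : ℝ) ≤ N := by exact_mod_cast (by omega : 1 ≤ N)
  have hlog : T ≤ Real.log N := by
    rw [Real.le_log_iff_exp_le hN0]; exact hNT
  have hlk : ((k + 1 : ℕ) : ℝ) ^ κ + 1 ≤ Real.log N := (le_max_right _ _).trans hlog
  have hk0 : (0 : ℝ) ≤ ((k + 1 : ℕ) : ℝ) ^ κ := by positivity
  have hl1 : 1 ≤ Real.log N := by linarith
  have hQ : Real.log (N * ((N ^ k : ℕ) : ℝ)) = ((k + 1 : ℕ) : ℝ) * Real.log N := by
    rw [show (N : ℝ) * ((N ^ k : ℕ) : ℝ) = (N : ℝ) ^ (k + 1) by push_cast; ring, Real.log_pow]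
  have h1 := hκ N (N ^ k) 1 1 hN2 (by
    have : 2 ^ 1 ≤ N ^ k := (Nat.pow_le_pow_left hN2 1).trans (Nat.pow_le_pow_right (by omega) (by omega))
    omega) le_rfl (by
    rw [hQ]
    push_cast
    rw [one_pow, one_mul]
    have h2 : X₀ ≤ Real.log N := (le_max_left _ _).trans hlog
    have h3 : (1 : ℝ) ≤ (k : ℝ) + 1 := by linarith [(Nat.cast_nonneg k : (0 : ℝ) ≤ k)]
    nlinarith) one_pos
  refine le_trans (Finset.card_le_card ?_) h1
  intro n hn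
  rw [nearInt, Finset.mem_filter] at hn
  rw [Finset.mem_filter]
  obtain ⟨hn1, m, hm⟩ := hn
  refine ⟨hn1, ?_⟩
  rw [Finset.mem_Icc] at hn1
  have hn1R : (1 : ℝ) ≤ n := by exact_mod_cast hn1.1
  have hns : (1 : ℝ) ≤ (n : ℝ) ^ s := Real.one_le_rpow hn1R hs0.le
  have hexp : Real.exp (-(Real.log N) ^ (κ + 1)) < 1 := by
    rw [Real.exp_lt_one_iff]
    have : 0 < (Real.log N) ^ (κ + 1) := by positivity
    linarith
  have habs := abs_le.1 hm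
  have hm1 : 0 < m := by
    have : (0 : ℝ) < m := by linarith
    exact_mod_cast this
  have hsk : s ≤ ((k - 1 : ℕ) : ℝ) := by
    rw [hk, Nat.add_sub_cancel]; exact Nat.le_ceil s
  have hnle : (n : ℝ) ^ s ≤ (N : ℝ) ^ (k - 1) := by
    rw [← Real.rpow_natCast]
    calc (n : ℝ) ^ s ≤ (N : ℝ) ^ s := Real.rpow_le_rpow (by linarith) (by exact_mod_cast hn1.2) hs0.le
      _ ≤ _ := Real.rpow_le_rpow_of_exponent_le hN1 hsk
  have hmQ : m ≤ ((N ^ k : ℕ) : ℤ) := by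
    have h2 : (m : ℝ) ≤ (N : ℝ) ^ k := by
      have h3 : (N : ℝ) ^ k = N * (N : ℝ) ^ (k - 1) := by
        rw [← pow_succ']; congr 1
      have h4 : (1 : ℝ) ≤ (N : ℝ) ^ (k - 1) := one_le_pow₀ hN1
      have h5 : (2 : ℝ) ≤ N := by exact_mod_cast hN2
      rw [h3]
      nlinarith
    exact_mod_cast h2
  refine ⟨(m : ℂ), by exact_mod_cast hm1.ne', ⟨Polynomial.X - Polynomial.C m,
    Polynomial.X_sub_C_ne_zero m, by rw [Polynomial.natDegree_X_sub_C], fun i => ?_, by simp⟩, ?_⟩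
  · rw [Polynomial.coeff_sub, Polynomial.coeff_X, Polynomial.coeff_C]
    have hpos : (0 : ℤ) < ((N ^ k : ℕ) : ℤ) := by positivity
    by_cases h0 : i = 0
    · subst h0
      simp only [one_ne_zero, if_false, if_true, zero_sub, abs_neg, abs_of_pos hm1]
      exact hmQ
    · rw [if_neg h0]
      split_ifs
      · rw [sub_zero, abs_one]; omega
      · rw [sub_zero, abs_zero]; omega
  · rw [one_mul, ← Complex.ofReal_intCast, ← Complex.ofReal_sub, Complex.norm_real, Real.norm_eq_abs]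
    refine hm.trans (Real.exp_le_exp.2 (neg_le_neg ?_))
    rw [hQ]
    push_cast
    rw [one_pow, one_mul, mul_pow, pow_succ]
    push_cast at hlk
    rw [mul_comm]
    refine mul_le_mul_of_nonneg_left (by linarith) (by positivity)

/-- `(a) ⇒ (c)` -/
theorem nearInt_le {s : ℝ} (hs0 : 0 < s) (hs : Dio s) : ∃ κ N₀ : ℕ, ∀ N : ℕ, N₀ ≤ N →
    (nearInt s κ N).card ≤ (Nat.log 2 N + 1) ^ 2 := nearInt_of_count hs0 (count_of_dio hs)

/-- `(c) ⇒ (d)` -/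
theorem log_bound_of {s : ℝ} (h : ∃ κ N₀ : ℕ, ∀ N : ℕ, N₀ ≤ N →
    (nearInt s κ N).card ≤ (Nat.log 2 N + 1) ^ 2) : ∃ κ B N₀ : ℕ, ∀ N : ℕ, N₀ ≤ N →
    ((nearInt s κ N).card : ℝ) ≤ (Real.log N) ^ B := by
  obtain ⟨κ, N₀, h⟩ := h
  refine ⟨κ, 3, max N₀ (⌈Real.exp 9⌉₊ + 1), fun N hN => ?_⟩
  have h1 := h N ((le_max_left _ _).trans hN)
  have hN1 : Real.exp 9 ≤ N := (Nat.le_ceil _).trans (by
    have := (le_max_right N₀ (⌈Real.exp 9⌉₊ + 1)).trans hN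
    exact_mod_cast (by omega : ⌈Real.exp 9⌉₊ ≤ N))
  have hN0 : (0 : ℝ) < N := lt_of_lt_of_le (Real.exp_pos _) hN1
  have hlog : 9 ≤ Real.log N := by
    rw [Real.le_log_iff_exp_le hN0]; exact hN1
  have h2 : (Nat.log 2 N : ℝ) * Real.log 2 ≤ Real.log N := by
    have hN2 : N ≠ 0 := by rintro rfl; simp at hN0
    have h3 : ((2 : ℝ) ^ Nat.log 2 N) ≤ N := by exact_mod_cast Nat.pow_log_le_self 2 hN2
    have h4 := Real.log_le_log (by positivity) h3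
    rwa [Real.log_pow] at h4
  have h3 := Real.log_two_gt_d9
  have h5 : (0 : ℝ) ≤ Nat.log 2 N := Nat.cast_nonneg _
  have h4 : (Nat.log 2 N : ℝ) + 1 ≤ 3 * Real.log N := by nlinarith
  calc ((nearInt s κ N).card : ℝ) ≤ ((Nat.log 2 N : ℝ) + 1) ^ 2 := by exact_mod_cast h1
    _ ≤ (3 * Real.log N) ^ 2 := pow_le_pow_left₀ (by positivity) h4 2
    _ = 9 * (Real.log N) ^ 2 := by ring
    _ ≤ Real.log N * (Real.log N) ^ 2 := by gcongr
    _ = _ := by ring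

end Pool.Agent.T6.H79.SX
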