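import Pool.Agent.T6.H79.SX.RatPi
import Pool.Agent.TH456.TM.E

/-!
# All exponents in `ℚ(t)` of bounded degree and height at once
-/

set_option autoImplicit false

namespace Pool.Agent.T6.H79.SX

open Finset hiding val
open Polynomial
open Pool.Agent.R347.LW (RB)
open Pool.Agent.TH456.TM (MeasT)

/-- the vectors of coefficients -/
noncomputable def vecs (D H : ℕ) : Finset (Fin (D + 1) → ℤ) := Fintype.piFinset fun _ => Finset.Icc (-(H : ℤ)) H

theorem card_vecs (D H : ℕ) : (vecs D H).card = (2 * H + 1) ^ (D + 1) := by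
  rw [vecs, Fintype.card_piFinset, Finset.prod_const, Int.card_Icc, Finset.card_univ, Fintype.card_fin]
  congr 1
  omega

/-- the polynomial with given coefficients -/
noncomputable def pol {D : ℕ} (c : Fin (D + 1) → ℤ) : ℤ[X] := ∑ i, C (c i) * X ^ (i : ℕ)

theorem pol_coeffs {D : ℕ} (P : ℤ[X]) (hP : P.natDegree ≤ D) : pol (fun i : Fin (D + 1) => P.coeff i) = P := by
  unfold pol
  rw [Fin.sum_univ_eq_sum_range (fun i => C (P.coeff i) * X ^ i) (D + 1)]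
  exact (P.as_sum_range_C_mul_X_pow' (Nat.lt_succ_of_le hP)).symm

theorem coeffs_mem {D H : ℕ} (P : ℤ[X]) (hH : ∀ j, |P.coeff j| ≤ H) :
    (fun i : Fin (D + 1) => P.coeff i) ∈ vecs D H := by
  rw [vecs, Fintype.mem_piFinset]
  intro i
  rw [Finset.mem_Icc]
  exact abs_le.1 (hH i)

/-- the irrational values at `t` of the quotients of integer polynomials of degree at most `D` with
coefficients of absolute value at most `H` -/
def exps (t : ℝ) (D H : ℕ) : Set ℝ :=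
  {x | (∀ r : ℚ, x ≠ r) ∧ ∃ P R : ℤ[X], P.natDegree ≤ D ∧ R.natDegree ≤ D ∧ (∀ j, |P.coeff j| ≤ H) ∧
    (∀ j, |R.coeff j| ≤ H) ∧ R ≠ 0 ∧ x = aeval t P / aeval t R}

open Classical in
/-- **All exponents at once.** -/
theorem all_exps {t : ℝ} (ht : MeasT (t : ℂ)) (D : ℕ) : ∃ κ : ℕ, ∀ (H N Q d : ℕ) (Ξ : Finset ℝ),
    2 ≤ H → 2 ≤ N → 2 ≤ Q → 1 ≤ d → 3200 ≤ XX H N Q d → (∀ ξ ∈ Ξ, 0 < ξ) →
    ((Finset.Icc 1 N).filter fun n : ℕ => ∃ x ∈ exps t D H, ∃ ξ ∈ Ξ,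
      Near d Q (Real.exp (-(XX H N Q d) ^ κ)) (ξ * (n : ℝ) ^ x)).card ≤
      (2 * H + 1) ^ (2 * (D + 1)) * Ξ.card * (Nat.log 2 N + 1) ^ 2 := by
  obtain ⟨A, hA⟩ := uniform_dio ht D
  obtain ⟨κ, hκ⟩ := scale A
  refine ⟨κ, fun H N Q d Ξ hH hN hQ hd hX hΞ => ?_⟩
  set val : ((Fin (D + 1) → ℤ) × (Fin (D + 1) → ℤ)) → ℝ := fun c => aeval t (pol c.1) / aeval t (pol c.2)
    with hval
  set G : ((Fin (D + 1) → ℤ) × (Fin (D + 1) → ℤ)) × ℝ → Finset ℕ := fun c =>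
    (Finset.Icc 1 N).filter fun n : ℕ => val c.1 ∈ exps t D H ∧
      Near d Q (Real.exp (-(XX H N Q d) ^ κ)) (c.2 * (n : ℝ) ^ val c.1) with hG
  have hsub : ((Finset.Icc 1 N).filter fun n : ℕ => ∃ x ∈ exps t D H, ∃ ξ ∈ Ξ,
      Near d Q (Real.exp (-(XX H N Q d) ^ κ)) (ξ * (n : ℝ) ^ x)) ⊆
      ((vecs D H ×ˢ vecs D H) ×ˢ Ξ).biUnion G := by
    intro n hn
    rw [Finset.mem_filter] at hn
    obtain ⟨hn1, x, hx, ξ, hξ, hnear⟩ := hn
    obtain ⟨hx1, P, R, hP, hR, hPH, hRH, hR0, hxe⟩ := hx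
    have e : val (fun i => P.coeff i, fun i => R.coeff i) = x := by
      rw [hval, hxe]
      simp only
      rw [pol_coeffs P hP, pol_coeffs R hR]
    rw [Finset.mem_biUnion]
    refine ⟨((fun i => P.coeff i, fun i => R.coeff i), ξ), ?_, ?_⟩
    · rw [Finset.mem_product, Finset.mem_product]
      exact ⟨⟨coeffs_mem P hPH, coeffs_mem R hRH⟩, hξ⟩
    · rw [hG]
      simp only [Finset.mem_filter]
      rw [e]
      exact ⟨hn1, ⟨hx1, P, R, hP, hR, hPH, hRH, hR0, hxe⟩, hnear⟩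
  refine (Finset.card_le_card hsub).trans (Finset.card_biUnion_le.trans ?_)
  have hterm : ∀ c ∈ ((vecs D H ×ˢ vecs D H) ×ˢ Ξ), (G c).card ≤ (Nat.log 2 N + 1) ^ 2 := by
    intro c hc
    rw [Finset.mem_product] at hc
    by_cases hmem : val c.1 ∈ exps t D H
    · obtain ⟨hx1, P, R, hP, hR, hPH, hRH, hR0, hxe⟩ := hmem
      obtain ⟨h1, h2⟩ := hA H P R hH hP hR hPH hRH hR0 (by rw [← hxe]; exact hx1)
      rw [← hxe] at h1 h2
      refine le_trans (Finset.card_le_card ?_) (hκ H N Q d (val c.1) c.2 (by omega) hN hQ hd hX h1 h2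
        (hΞ _ hc.2))
      intro n hn
      rw [hG] at hn
      simp only [Finset.mem_filter] at hn ⊢
      exact ⟨hn.1, hn.2.2⟩
    · have : G c = ∅ := by
        rw [hG]
        simp only
        apply Finset.filter_eq_empty_iff.2
        rintro n _ ⟨h, _⟩
        exact hmem h
      rw [this, Finset.card_empty]
      exact Nat.zero_le _
  calc ∑ c ∈ ((vecs D H ×ˢ vecs D H) ×ˢ Ξ), (G c).card
      ≤ ∑ _c ∈ ((vecs D H ×ˢ vecs D H) ×ˢ Ξ), (Nat.log 2 N + 1) ^ 2 := Finset.sum_le_sum hterm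
    _ = _ := by
        rw [Finset.sum_const, Finset.card_product, Finset.card_product, card_vecs, smul_eq_mul,
          ← pow_add]
        congr 2
        congr 1
        ring

end Pool.Agent.T6.H79.SX
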