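import Pool.Agent.T6.H79.SX.Core

/-!
# Four integers `n` for which `ξ n ^ s` is close to an algebraic number
-/

set_option autoImplicit false

namespace Pool.Agent.T6.H79.SX

open Finset hiding val
open Complex
open Pool.Agent.R347.SX (cf)
open Pool.Agent.R347.LW (RB common_field)
open Pool.Agent.R347.GS (DI DI.mono DI.mul DI.pow DI.add DI.int DI.sum)

theorem natlog_bound (N : ℕ) (hN : 1 ≤ N) : (N : ℝ) ≤ 2 ^ (Nat.log 2 N + 1) := by
  exact_mod_cast (Nat.lt_pow_succ_log_self (by norm_num) N).le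

theorem log_le_natlog (N n : ℕ) (hn : 1 ≤ n) (hnN : n ≤ N) :
    0 ≤ Real.log n ∧ Real.log n ≤ (Nat.log 2 N + 1 : ℕ) := by
  have hn0 : (1 : ℝ) ≤ n := by exact_mod_cast hn
  refine ⟨Real.log_nonneg hn0, ?_⟩
  have h1 : (n : ℝ) ≤ 2 ^ (Nat.log 2 N + 1) :=
    le_trans (by exact_mod_cast hnN) (natlog_bound N (hn.trans hnN))
  have h2 := Real.log_le_log (by linarith) h1
  rw [Real.log_pow] at h2
  refine h2.trans ?_
  have h3 := Real.log_two_lt_d9
  have h4 : (0 : ℝ) ≤ (Nat.log 2 N + 1 : ℕ) := by positivity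
  nlinarith

/-- quotients of approximations -/
theorem quot_app {a b δ : ℝ} {x y : ℂ} {Q : ℕ} (hQ : 1 ≤ Q) (hx : ‖x‖ ≤ Q + 1) (hy : ‖y‖ ≤ Q + 1)
    (hy0 : y ≠ 0) (hy1 : ‖y⁻¹‖ ≤ Q + 1) (ha : ‖(a : ℂ) - x‖ ≤ δ) (hb : ‖(b : ℂ) - y‖ ≤ δ)
    (hδ : 2 * (Q + 1) * δ ≤ 1) :
    ‖((a / b : ℝ) : ℂ) - x * y⁻¹‖ ≤ 4 * (Q + 1) ^ 3 * δ := by
  have hQ0 : (0 : ℝ) < Q + 1 := by positivity
  have hδ0 : 0 ≤ δ := (norm_nonneg _).trans ha
  have hyn : 0 < ‖y‖ := norm_pos_iff.2 hy0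
  have hy2 : 1 / ((Q : ℝ) + 1) ≤ ‖y‖ := by
    rw [norm_inv, inv_le_comm₀ hyn hQ0] at hy1
    rwa [one_div]
  have hbn : 1 / (2 * ((Q : ℝ) + 1)) ≤ ‖(b : ℂ)‖ := by
    have h1 : ‖y‖ ≤ ‖(b : ℂ)‖ + δ := by
      have : y = (b : ℂ) - ((b : ℂ) - y) := by ring
      calc ‖y‖ = ‖(b : ℂ) - ((b : ℂ) - y)‖ := by rw [← this]
        _ ≤ ‖(b : ℂ)‖ + ‖(b : ℂ) - y‖ := norm_sub_le _ _
        _ ≤ _ := by linarith
    have h2 : δ ≤ 1 / (2 * ((Q : ℝ) + 1)) := by
      rw [le_div_iff₀ (by positivity)]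
      linarith
    have h3 : 1 / ((Q : ℝ) + 1) = 1 / (2 * ((Q : ℝ) + 1)) + 1 / (2 * ((Q : ℝ) + 1)) := by
      field_simp; norm_num
    linarith
  have hbpos : 0 < ‖(b : ℂ)‖ := lt_of_lt_of_le (by positivity) hbn
  have hb0 : (b : ℂ) ≠ 0 := norm_pos_iff.1 hbpos
  have e1 : ((a / b : ℝ) : ℂ) - x * y⁻¹ =
      (((a : ℂ) - x) * y - ((b : ℂ) - y) * x) * ((b : ℂ)⁻¹ * y⁻¹) := by
    push_cast
    field_simp
    ring
  rw [e1, norm_mul, norm_mul, norm_inv (b : ℂ)]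
  have h1 : ‖((a : ℂ) - x) * y - ((b : ℂ) - y) * x‖ ≤ δ * (Q + 1) + δ * (Q + 1) := by
    refine (norm_sub_le _ _).trans (add_le_add ?_ ?_)
    · rw [norm_mul]; exact mul_le_mul ha hy (norm_nonneg _) hδ0
    · rw [norm_mul]; exact mul_le_mul hb hx (norm_nonneg _) hδ0
  have h2 : ‖(b : ℂ)‖⁻¹ ≤ 2 * (Q + 1) := by
    rw [inv_le_comm₀ hbpos (by positivity)]
    rwa [← one_div]
  calc ‖((a : ℂ) - x) * y - ((b : ℂ) - y) * x‖ * (‖(b : ℂ)‖⁻¹ * ‖y⁻¹‖)
      ≤ (δ * (Q + 1) + δ * (Q + 1)) * ((2 * (Q + 1)) * (Q + 1)) := by gcongr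
    _ = 4 * (Q + 1) ^ 3 * δ := by ring

/-- **Four integers.** If `ξ n ^ s` is extremely close to an algebraic number of bounded degree and
height for four integers `n₀, …, n₃` then the numbers `n_m / n₀` are multiplicatively dependent. -/
theorem four (A Y H N Q d : ℕ) (s ξ : ℝ) (hY : 2 ≤ Y) (hH1 : 1 ≤ H) (hHY : H ≤ Y) (hs : |s| ≤ Y)
    (hQ : 1 ≤ Q) (hL : 9 * (Nat.log 2 N + Nat.log 2 Q + 2) ≤ Y)
    (hd : (4 * d + 1) ^ (4 * d + 1) ≤ Y)
    (hdio : ∀ w : ℕ, 2 ≤ w → ∀ u : ℤ, Real.exp (-((H : ℝ) * w) ^ A) ≤ |s - u / w|)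
    (hξ : 0 < ξ) (n0 : ℕ) (n : Fin 3 → ℕ) (hn0 : 1 ≤ n0 ∧ n0 ≤ N) (hn : ∀ m, 1 ≤ n m ∧ n m ≤ N)
    (α0 : ℂ) (α : Fin 3 → ℂ) (hα0 : RB d Q α0) (hα0' : α0 ≠ 0) (hα : ∀ m, RB d Q (α m))
    (δ : ℝ) (hδ : δ ≤ ((2 : ℝ) ^ LL A Y)⁻¹)
    (h0 : ‖((ξ * (n0 : ℝ) ^ s : ℝ) : ℂ) - α0‖ ≤ δ)
    (h : ∀ m, ‖((ξ * (n m : ℝ) ^ s : ℝ) : ℂ) - α m‖ ≤ δ) :
    ∃ c : Fin 3 → ℤ, c ≠ 0 ∧ ∑ m, (c m : ℝ) * (Real.log (n m) - Real.log n0) = 0 := by
  classical
  have hN : 1 ≤ N := hn0.1.trans hn0.2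
  -- the field
  set b : Fin 4 → ℂ := Fin.cons α0⁻¹ α with hb
  obtain ⟨L, hL1, hL2, hcard, B, D0, hB, hD1, hD2, hint, hconj⟩ := common_field d Q b (by
    intro i
    refine Fin.cases ?_ (fun m => ?_) i
    · exact RB_inv hα0 hα0'
    · exact hα m)
  rw [Fintype.card_fin] at hcard hD2
  set A' : Fin 2 × Fin 3 → L := fun p =>
    if p.1 = 0 then ((n p.2 : ℕ) : L) / ((n0 : ℕ) : L) else B p.2.succ * B 0 with hA'
  set D : ℕ := n0 * D0 ^ 2 with hD
  have hn0L : ((n0 : ℕ) : L) ≠ 0 := by exact_mod_cast (by omega : n0 ≠ 0)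
  set y : Fin 3 → ℂ := fun m => ((Real.log (n m) - Real.log n0 : ℝ) : ℂ) with hy
  have hlogn := fun m => log_le_natlog N (n m) (hn m).1 (hn m).2
  have hlog0 := log_le_natlog N n0 hn0.1 hn0.2
  have hnN : ∀ m, ((n m : ℕ) : ℝ) ≤ 2 ^ Y := fun m => by
    have h1 : (n m : ℝ) ≤ N := by exact_mod_cast (hn m).2
    refine h1.trans ((natlog_bound N hN).trans (pow_le_pow_right₀ (by norm_num) (by omega)))
  have hQY : (Q : ℝ) + 1 ≤ 2 ^ (Nat.log 2 Q + 2) := by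
    have h1 := natlog_bound Q hQ
    have h2 : (1 : ℝ) ≤ 2 ^ (Nat.log 2 Q + 1) := one_le_pow₀ (by norm_num)
    rw [pow_succ 2 (Nat.log 2 Q + 1)]
    linarith
  have hδ0 : 0 ≤ δ := (norm_nonneg _).trans h0
  -- application of the quantitative theorem
  have key := six_quant Y (vv A Y) (PP Y (vv A Y) + QQ Y) (2 ^ vv A Y) hY
    (one_le_pow₀ (by norm_num)) le_rfl le_rfl (s : ℂ) y (by simpa using hs) ?_ L ?_ A' D ?_ ?_ ?_ ?_ ?_
  · rcases key with ⟨u, w, hw1, hw2, huw⟩ | ⟨c, hc0, hcB, hcs⟩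
    · exfalso
      have hVB2 : 2 ≤ VB Y := by
        have : 1 ≤ DD Y := DD_pos Y hY
        have h2 : 1 ≤ Tf Y := by unfold Tf; omega
        unfold VB
        omega
      have huw' : |s - u / w| ≤ ((2 : ℝ) ^ vv A Y)⁻¹ := by
        have : ((s : ℂ) - u / w) = ((s - u / w : ℝ) : ℂ) := by push_cast; rfl
        rw [this, Complex.norm_real, Real.norm_eq_abs] at huw
        exact huw
      have hlow : Real.exp (-(((Y * VB Y : ℕ) : ℝ)) ^ A) ≤ |s - u / w| := by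
        have gen : ∀ w' : ℕ, 2 ≤ w' → w' ≤ VB Y → ∀ u' : ℤ, (u' : ℝ) / w' = u / w →
            Real.exp (-(((Y * VB Y : ℕ) : ℝ)) ^ A) ≤ |s - u / w| := by
          intro w' h1 h2 u' h3
          rw [← h3]
          refine le_trans (Real.exp_le_exp.2 (neg_le_neg ?_)) (hdio w' h1 u')
          refine pow_le_pow_left₀ (by positivity) ?_ A
          exact_mod_cast Nat.mul_le_mul hHY h2
        rcases Nat.lt_or_ge w 2 with h | h
        · have hw : w = 1 := by omega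
          refine gen 2 le_rfl hVB2 (2 * u) ?_
          rw [hw]
          push_cast
          ring
        · exact gen w h hw2 u rfl
      have h1 := hlow.trans huw'
      rw [Real.exp_neg, inv_le_inv₀ (Real.exp_pos _) (by positivity)] at h1
      have h2 : Real.exp (((Y * VB Y : ℕ) : ℝ) ^ A) ≤ 2 ^ (2 * (Y * VB Y) ^ A) := by
        have := Pool.Agent.R347.GS.exp_le_two_pow ((Y * VB Y) ^ A)
        push_cast at this ⊢
        exact this
      have h3 : (2 : ℝ) ^ (2 * (Y * VB Y) ^ A) < 2 ^ vv A Y :=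
        pow_lt_pow_right₀ (by norm_num) (by unfold vv; omega)
      linarith
    · refine ⟨c, hc0, ?_⟩
      by_contra hne
      have h1 := comb_lower n0 n hn0 hn c hcB hne
      have h2 : ‖∑ m, (c m : ℂ) * y m‖ = |∑ m, (c m : ℝ) * (Real.log (n m) - Real.log n0)| := by
        rw [← Real.norm_eq_abs, ← Complex.norm_real]
        congr 1
        rw [hy]
        push_cast
        rfl
      rw [h2] at hcs
      have h3 := h1.trans hcs
      rw [inv_le_inv₀ (by positivity) (by positivity)] at h3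
      have h4 : (N : ℝ) ^ (6 * VB Y) ≤ 2 ^ (6 * VB Y * Y) := by
        calc (N : ℝ) ^ (6 * VB Y) ≤ ((2 : ℝ) ^ Y) ^ (6 * VB Y) :=
              pow_le_pow_left₀ (by positivity) ((natlog_bound N hN).trans
                (pow_le_pow_right₀ (by norm_num) (by omega))) _
          _ = _ := by rw [← pow_mul, mul_comm]
      have h5 : (2 : ℝ) ^ (6 * VB Y * Y) < 2 ^ vv A Y :=
        pow_lt_pow_right₀ (by norm_num) (by unfold vv; omega)
      linarith
  · -- the sum of the logarithms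
    have h1 : ∀ m, ‖y m‖ ≤ (Nat.log 2 N + 1 : ℕ) := by
      intro m
      rw [hy]
      simp only
      rw [Complex.norm_real, Real.norm_eq_abs, abs_le]
      have := hlogn m
      constructor <;> linarith
    calc ∑ m, ‖y m‖ ≤ ∑ _m : Fin 3, ((Nat.log 2 N + 1 : ℕ) : ℝ) := Finset.sum_le_sum fun m _ => h1 m
      _ = ((3 * (Nat.log 2 N + 1) : ℕ) : ℝ) := by
          rw [Finset.sum_const, Finset.card_univ, Fintype.card_fin]; push_cast; ring
      _ ≤ Y := by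
          have h2 : 3 * (Nat.log 2 N + 1) ≤ Y := by omega
          exact_mod_cast h2
  · exact le_trans (by convert hcard) hd
  · exact Nat.one_le_iff_ne_zero.2 (Nat.mul_ne_zero (by omega) (pow_ne_zero _ (by omega)))
  · -- the denominator
    have h1 : D0 ^ 2 ≤ (2 ^ (Nat.log 2 Q + 1)) ^ 8 := by
      calc D0 ^ 2 ≤ (Q ^ 4) ^ 2 := Nat.pow_le_pow_left hD2 2
        _ = Q ^ 8 := by ring
        _ ≤ _ := Nat.pow_le_pow_left (Nat.lt_pow_succ_log_self (by norm_num) Q).le 8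
    have h2 : n0 ≤ 2 ^ (Nat.log 2 N + 1) := hn0.2.trans (Nat.lt_pow_succ_log_self (by norm_num) N).le
    calc D ≤ 2 ^ (Nat.log 2 N + 1) * (2 ^ (Nat.log 2 Q + 1)) ^ 8 := Nat.mul_le_mul h2 h1
      _ = 2 ^ (Nat.log 2 N + 1 + (Nat.log 2 Q + 1) * 8) := by rw [← pow_mul, ← pow_add]
      _ ≤ 2 ^ Y := Nat.pow_le_pow_right (by norm_num) (by omega)
  · -- integrality
    intro p
    have hDL : (D : L) = (n0 : L) * (D0 : L) ^ 2 := by rw [hD]; push_cast; rfl
    have hnat : ∀ k : ℕ, IsIntegral ℤ ((k : ℕ) : L) := fun k => by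
      have := isIntegral_algebraMap (R := ℤ) (A := L) (x := (k : ℤ))
      simpa using this
    unfold DI
    rw [pow_one, hA', hDL]
    by_cases hp : p.1 = 0
    · simp only [hp, if_true]
      have e : (n0 : L) * (D0 : L) ^ 2 * ((n p.2 : L) / (n0 : L)) = (D0 : L) ^ 2 * (n p.2 : L) := by
        field_simp
      rw [e]
      exact ((hnat D0).pow 2).mul (hnat _)
    · simp only [hp, if_false]
      have e : (n0 : L) * (D0 : L) ^ 2 * (B p.2.succ * B 0) =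
          (n0 : L) * (((D0 : L) * B p.2.succ) * ((D0 : L) * B 0)) := by ring
      rw [e]
      exact (hnat _).mul ((hint _).mul (hint _))
  · -- the conjugates
    intro p σ
    rw [hA']
    by_cases hp : p.1 = 0
    · simp only [hp, if_true]
      rw [map_div₀, map_natCast, map_natCast]
      push_cast
      rw [norm_div, Complex.norm_natCast, Complex.norm_natCast]
      have h1 : (1 : ℝ) ≤ n0 := by exact_mod_cast hn0.1
      exact (div_le_self (by positivity) h1).trans (hnN _)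
    · simp only [hp, if_false]
      rw [map_mul]
      push_cast
      rw [norm_mul]
      calc ‖((σ (B p.2.succ) : L) : ℂ)‖ * ‖((σ (B 0) : L) : ℂ)‖ ≤ ((Q : ℝ) + 1) * ((Q : ℝ) + 1) :=
            mul_le_mul (hconj _ σ) (hconj _ σ) (norm_nonneg _) (by positivity)
        _ ≤ 2 ^ (Nat.log 2 Q + 2) * 2 ^ (Nat.log 2 Q + 2) := by gcongr
        _ = 2 ^ (Nat.log 2 Q + 2 + (Nat.log 2 Q + 2)) := (pow_add _ _ _).symm
        _ ≤ 2 ^ Y := pow_le_pow_right₀ (by norm_num) (by omega)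
  · -- the approximations
    intro p
    rw [hA']
    have hnp : (0 : ℝ) < n p.2 := by exact_mod_cast (by have := (hn p.2).1; omega)
    have hn0p : (0 : ℝ) < n0 := by exact_mod_cast (by have := hn0.1; omega)
    by_cases hp : p.1 = 0
    · simp only [hp, if_true]
      have e1 : exp (cf (s : ℂ) 0 * y p.2) = (n p.2 : ℂ) / n0 := by
        rw [hy]
        simp only [cf, if_true, one_mul]
        rw [← Complex.ofReal_exp, Real.exp_sub, Real.exp_log hnp, Real.exp_log hn0p]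
        push_cast
        rfl
      rw [e1]
      push_cast
      rw [sub_self, norm_zero]
      positivity
    · have hp1 : p.1 = 1 := by
        have := p.1.2
        refine Fin.ext ?_
        have h2 : (p.1 : ℕ) ≠ 0 := fun h => hp (Fin.ext h)
        show (p.1 : ℕ) = 1
        omega
      simp only [hp, if_false]
      have e1 : exp (cf (s : ℂ) p.1 * y p.2) = (((ξ * (n p.2 : ℝ) ^ s) / (ξ * (n0 : ℝ) ^ s) : ℝ) : ℂ) := by
        rw [hp1, hy]
        simp only [cf]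
        rw [if_neg (by decide), mul_div_mul_left _ _ hξ.ne', Real.rpow_def_of_pos hnp,
          Real.rpow_def_of_pos hn0p, ← Real.exp_sub]
        rw [Complex.ofReal_exp]
        congr 1
        push_cast
        ring
      rw [e1]
      have e2 : ((B p.2.succ * B 0 : L) : ℂ) = α p.2 * α0⁻¹ := by
        push_cast
        rw [hB, hB, hb]
        rfl
      rw [e2]
      have hQ0 : (1 : ℝ) ≤ Q + 1 := by
        have : (0 : ℝ) ≤ Q := by positivity
        linarith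
      have hrn : ∀ z : ℂ, RB d Q z → ‖z‖ ≤ Q + 1 := fun z ⟨P, hP, _, hc, hz⟩ =>
        Pool.Agent.R347.LW.root_norm_le hP hc hz
      have hsm : 4 * ((Q : ℝ) + 1) ^ 3 * δ ≤ ((2 : ℝ) ^ (PP Y (vv A Y) + QQ Y))⁻¹ := by
        have h1 : 4 * ((Q : ℝ) + 1) ^ 3 ≤ 2 ^ (3 * Y + 8) := by
          calc 4 * ((Q : ℝ) + 1) ^ 3 ≤ 2 ^ 2 * (2 ^ (Nat.log 2 Q + 2)) ^ 3 := by
                gcongr
                norm_num
            _ = 2 ^ (2 + (Nat.log 2 Q + 2) * 3) := by rw [← pow_mul, ← pow_add]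
            _ ≤ _ := pow_le_pow_right₀ (by norm_num) (by omega)
        calc 4 * ((Q : ℝ) + 1) ^ 3 * δ ≤ 2 ^ (3 * Y + 8) * ((2 : ℝ) ^ LL A Y)⁻¹ := by gcongr
          _ = ((2 : ℝ) ^ (PP Y (vv A Y) + QQ Y))⁻¹ := by
              unfold LL
              rw [pow_add 2 (PP Y (vv A Y) + QQ Y), mul_inv, mul_comm, mul_assoc,
                inv_mul_cancel₀ (by positivity), mul_one]
      refine (quot_app hQ (hrn _ (hα p.2)) (hrn _ hα0) hα0' (hrn _ (RB_inv hα0 hα0')) (h p.2) h0 ?_).trans hsm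
      have h1 : 2 * ((Q : ℝ) + 1) * δ ≤ 4 * ((Q : ℝ) + 1) ^ 3 * δ := by
        have h2 : 2 * ((Q : ℝ) + 1) ≤ 4 * ((Q : ℝ) + 1) ^ 3 := by
          have h3 : ((Q : ℝ) + 1) ≤ ((Q : ℝ) + 1) ^ 3 := le_self_pow₀ hQ0 (by norm_num)
          nlinarith
        exact mul_le_mul_of_nonneg_right h2 hδ0
      refine h1.trans (hsm.trans ?_)
      exact inv_le_one_of_one_le₀ (one_le_pow₀ (by norm_num))

end Pool.Agent.T6.H79.SX
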