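import Mathlib

/-!
# Polynomial parameters for the quantitative six exponentials theorem

The parameters of `Pool.Agent.R347.SX.Num` (starting files) with `ss Y = 4096 Y ^ 4` instead of
`2 ^ (16 Y)`: all of them are polynomials in `Y`.
-/

set_option autoImplicit false

namespace Pool.Agent.T6.H79.SX

def ss (Y : ℕ) : ℕ := 4096 * Y ^ 4
def DD (Y : ℕ) : ℕ := 4 * (Y + 2) ^ 2 * ss Y ^ 3
def SS (Y : ℕ) : ℕ := 2 * (Y + 2) * ss Y ^ 2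
def Tf (Y : ℕ) : ℕ := 16 * DD Y ^ 6 + 1
def tt (Y : ℕ) : ℕ := 320 * Y
def gam (Y T : ℕ) : ℕ := 20 * Y ^ 2 * DD Y * T
def hh (Y T : ℕ) : ℕ := 6 * Y * T * DD Y
def EE (Y : ℕ) : ℕ :=
  3 + tt Y + gam Y (SS Y) + Y ^ 2 * (6 * SS Y * DD Y) + Y * (tt Y + hh Y (SS Y))
def lam (Y T : ℕ) : ℕ := Y * (Y * (6 * T * DD Y) + (tt Y + EE Y + hh Y T))

theorem ss_ge (Y : ℕ) (_hY : 2 ≤ Y) : 4096 * Y ^ 4 ≤ ss Y := le_rfl

theorem ss_le_pow (Y : ℕ) (hY : 2 ≤ Y) : ss Y ≤ 2 ^ (16 * Y) := by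
  have h1 : Y ≤ 2 ^ Y := Nat.lt_two_pow_self.le
  unfold ss
  calc 4096 * Y ^ 4 ≤ 4096 * (2 ^ Y) ^ 4 := by gcongr
    _ = 2 ^ (12 + Y * 4) := by rw [pow_add, ← pow_mul]; norm_num
    _ ≤ 2 ^ (16 * Y) := Nat.pow_le_pow_right (by norm_num) (by omega)

theorem ss_pos (Y : ℕ) (hY : 2 ≤ Y) : 1 ≤ ss Y := by
  unfold ss
  exact Nat.one_le_iff_ne_zero.2 (by positivity)

theorem DD_pos (Y : ℕ) (hY : 2 ≤ Y) : 1 ≤ DD Y := by
  unfold DD ss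
  exact Nat.one_le_iff_ne_zero.2 (by positivity)

theorem SS_pos (Y : ℕ) (hY : 2 ≤ Y) : 1 ≤ SS Y := by
  unfold SS ss
  exact Nat.one_le_iff_ne_zero.2 (by positivity)

theorem DD_le_pow (Y : ℕ) (hY : 2 ≤ Y) : DD Y ≤ 2 ^ (50 * Y + 4) := by
  have h1 : Y ≤ 2 ^ Y := Nat.lt_two_pow_self.le
  unfold DD
  have h2 := ss_le_pow Y hY
  calc 4 * (Y + 2) ^ 2 * ss Y ^ 3 ≤ 4 * (2 * 2 ^ Y) ^ 2 * (2 ^ (16 * Y)) ^ 3 := by gcongr; omega
    _ = 2 ^ (50 * Y + 4) := by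
        rw [show (4 : ℕ) = 2 ^ 2 by norm_num, mul_pow, ← pow_mul, ← pow_mul, ← pow_add, ← pow_add,
          ← pow_add]
        congr 1
        ring

theorem Tf_le (Y : ℕ) (hY : 2 ≤ Y) : Tf Y ≤ 2 ^ tt Y := by
  have h1 := DD_le_pow Y hY
  unfold Tf
  have h2 : 16 * DD Y ^ 6 ≤ 2 ^ (300 * Y + 28) := by
    calc 16 * DD Y ^ 6 ≤ 16 * (2 ^ (50 * Y + 4)) ^ 6 := by gcongr
      _ = 2 ^ (300 * Y + 28) := by
          rw [show (16 : ℕ) = 2 ^ 4 by norm_num, ← pow_mul, ← pow_add]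
          congr 1
          ring
  have h3 : 2 ^ (300 * Y + 28) + 1 ≤ 2 ^ (300 * Y + 29) := by
    have : 1 ≤ 2 ^ (300 * Y + 28) := Nat.one_le_two_pow
    rw [pow_succ 2 (300 * Y + 28)]
    omega
  have h4 : 2 ^ (300 * Y + 29) ≤ 2 ^ tt Y := Nat.pow_le_pow_right (by norm_num) (by unfold tt; omega)
  omega

theorem SS_le (Y : ℕ) (hY : 2 ≤ Y) : SS Y ≤ Tf Y := by
  have h1 : SS Y ≤ DD Y := by
    unfold SS DD
    have h : 1 ≤ ss Y := ss_pos Y hY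
    have h2 : ss Y ^ 2 ≤ ss Y ^ 3 := Nat.pow_le_pow_right h (by norm_num)
    have h3 : 2 * (Y + 2) ≤ 4 * (Y + 2) ^ 2 := by nlinarith
    exact Nat.mul_le_mul h3 h2
  have h2 : DD Y ≤ DD Y ^ 6 := Nat.le_self_pow (by norm_num) (DD Y)
  unfold Tf
  omega

theorem main_ineq (Y T : ℕ) (hY : 2 ≤ Y) (hT : SS Y ≤ T) :
    3 + tt Y + EE Y + gam Y T + lam Y (T + 1) ≤ T ^ 3 := by
  have hs := ss_ge Y hY
  have hD : DD Y = 4 * (Y + 2) ^ 2 * ss Y ^ 3 := rfl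
  have hSS : SS Y = 2 * (Y + 2) * ss Y ^ 2 := rfl
  have hD1 := DD_pos Y hY
  have hS1 := SS_pos Y hY
  generalize hsd : ss Y = s at *
  generalize hdd : DD Y = d at *
  generalize hSd : SS Y = S at *
  have hT1 : 1 ≤ T := hS1.trans hT
  have hE : EE Y = 3 + 320 * Y + 320 * Y ^ 2 + 32 * Y ^ 2 * d * S := by
    unfold EE gam hh tt
    rw [hdd, hSd]
    ring
  have hL : lam Y (T + 1) = 12 * Y ^ 2 * d * (T + 1) + 320 * Y ^ 2 + Y * EE Y := by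
    unfold lam hh tt
    rw [hdd]
    ring
  have hG : gam Y T = 20 * Y ^ 2 * d * T := by
    unfold gam
    rw [hdd]
  have htt : tt Y = 320 * Y := rfl
  rw [hL, hG, hE, htt]
  have hdS : 32 * Y ^ 2 * d * S ≤ 32 * Y ^ 2 * d * T := Nat.mul_le_mul_left _ hT
  have h2 : 4 * Y ^ 2 * d * T ≤ 2 * Y ^ 3 * d * T := by
    calc 4 * Y ^ 2 * d * T = 2 * (2 * Y ^ 2) * d * T := by ring
      _ ≤ 2 * (Y * Y ^ 2) * d * T := by gcongr
      _ = _ := by ring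
  have hdT : 1 ≤ d * T := Nat.one_le_iff_ne_zero.2 (by positivity)
  -- constants
  have hs2 : 4096 * 16 ≤ s := by
    have h4 : 4 ≤ Y ^ 2 := by nlinarith
    have : 16 ≤ Y ^ 4 := by
      have : Y ^ 4 = Y ^ 2 * Y ^ 2 := by ring
      nlinarith
    omega
  have hconst : (3 + 320 * Y + 320 * Y ^ 2) * (1 + Y) + 320 * Y + 320 * Y ^ 2 + 3 ≤ Y ^ 3 * (d * T) := by
    have e1 : (3 + 320 * Y + 320 * Y ^ 2) * (1 + Y) + 320 * Y + 320 * Y ^ 2 + 3 ≤ Y ^ 3 * 4096 := by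
      nlinarith [Nat.zero_le Y, mul_le_mul hY hY (by norm_num) (by omega),
        mul_le_mul (mul_le_mul hY hY (by norm_num) (by omega)) hY (by norm_num) (by positivity),
        Nat.mul_le_mul_left (Y ^ 2) hY, Nat.mul_le_mul_left Y hY]
    have e2 : 4096 ≤ d * T := by
      have e3 : s ≤ d := by
        rw [hD]
        calc s ≤ s ^ 3 := Nat.le_self_pow (by norm_num) _
          _ ≤ 4 * (Y + 2) ^ 2 * s ^ 3 := Nat.le_mul_of_pos_left _ (by positivity)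
      calc 4096 ≤ d := by omega
        _ ≤ d * T := Nat.le_mul_of_pos_right _ hT1
    exact e1.trans (Nat.mul_le_mul_left _ e2)
  have hfin : 3 + 320 * Y + (3 + 320 * Y + 320 * Y ^ 2 + 32 * Y ^ 2 * d * S) + 20 * Y ^ 2 * d * T +
      (12 * Y ^ 2 * d * (T + 1) + 320 * Y ^ 2 +
        Y * (3 + 320 * Y + 320 * Y ^ 2 + 32 * Y ^ 2 * d * S)) ≤ 100 * Y ^ 3 * d * T := by
    have g1 : 12 * Y ^ 2 * d * (T + 1) ≤ 24 * Y ^ 2 * d * T := by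
      calc 12 * Y ^ 2 * d * (T + 1) ≤ 12 * Y ^ 2 * d * (T + T) := by gcongr
        _ = _ := by ring
    have g2 : Y * (32 * Y ^ 2 * d * S) ≤ 32 * Y ^ 3 * d * T := by
      calc Y * (32 * Y ^ 2 * d * S) ≤ Y * (32 * Y ^ 2 * d * T) := by gcongr
        _ = _ := by ring
    have g3 : 76 * Y ^ 2 * d * T ≤ 38 * Y ^ 3 * d * T := by
      calc 76 * Y ^ 2 * d * T = 19 * (4 * Y ^ 2 * d * T) := by ring
        _ ≤ 19 * (2 * Y ^ 3 * d * T) := by gcongr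
        _ = _ := by ring
    calc 3 + 320 * Y + (3 + 320 * Y + 320 * Y ^ 2 + 32 * Y ^ 2 * d * S) + 20 * Y ^ 2 * d * T +
      (12 * Y ^ 2 * d * (T + 1) + 320 * Y ^ 2 +
        Y * (3 + 320 * Y + 320 * Y ^ 2 + 32 * Y ^ 2 * d * S))
        = ((3 + 320 * Y + 320 * Y ^ 2) * (1 + Y) + 320 * Y + 320 * Y ^ 2 + 3) +
          32 * Y ^ 2 * d * S + 20 * Y ^ 2 * d * T + 12 * Y ^ 2 * d * (T + 1) +
          Y * (32 * Y ^ 2 * d * S) := by ring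
      _ ≤ Y ^ 3 * (d * T) + 32 * Y ^ 2 * d * T + 20 * Y ^ 2 * d * T + 24 * Y ^ 2 * d * T +
          32 * Y ^ 3 * d * T := by gcongr
      _ = 33 * Y ^ 3 * d * T + 76 * Y ^ 2 * d * T := by ring
      _ ≤ 33 * Y ^ 3 * d * T + 38 * Y ^ 3 * d * T := by gcongr
      _ = 71 * Y ^ 3 * d * T := by ring
      _ ≤ _ := by gcongr; norm_num
  refine hfin.trans ?_
  have hkey : 100 * Y ^ 3 * d ≤ T ^ 2 := by
    calc 100 * Y ^ 3 * d = (100 * Y ^ 3) * (4 * (Y + 2) ^ 2 * s ^ 3) := by rw [hD]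
      _ ≤ s * (4 * (Y + 2) ^ 2 * s ^ 3) := by
          gcongr
          have : Y ^ 3 ≤ Y ^ 4 := Nat.pow_le_pow_right (by omega) (by norm_num)
          omega
      _ = S ^ 2 := by rw [hSS]; ring
      _ ≤ T ^ 2 := by gcongr
  calc 100 * Y ^ 3 * d * T ≤ T ^ 2 * T := Nat.mul_le_mul_right _ hkey
    _ = T ^ 3 := by ring

end Pool.Agent.T6.H79.SX
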