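import Pool.Agent.T6.H79.SX.Scale
import Pool.Agent.TH456.TM.Inst

/-!
# Exponents in `ℚ(t)` for numbers `t` with a transcendence measure
-/

set_option autoImplicit false

namespace Pool.Agent.T6.H79.SX

open Finset hiding val
open Polynomial
open Pool.Agent.R347.LW (RB)
open Pool.Agent.TH456.TM (MeasT)

/-- a transcendence measure with one natural constant -/
theorem meas_nat {t : ℝ} (ht : MeasT (t : ℂ)) (D : ℕ) : ∃ k : ℕ, 1 ≤ k ∧ ∀ P : ℤ[X], P ≠ 0 →
    P.natDegree ≤ D → ∀ H : ℝ, 1 ≤ H → (∀ j, |(P.coeff j : ℝ)| ≤ H) →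
    (((k : ℝ) * H) ^ k)⁻¹ ≤ |aeval t P| := by
  obtain ⟨κ, c, hκ, hc, h⟩ := ht D
  obtain ⟨k, hk⟩ := exists_nat_gt (max κ (1 / c))
  have hk1 : κ < k := (le_max_left _ _).trans_lt hk
  have hk2 : 1 / c < k := (le_max_right _ _).trans_lt hk
  have hk0 : (0 : ℝ) < k := lt_of_le_of_lt hκ hk1
  have hkn : 1 ≤ k := by
    have : 0 < k := by exact_mod_cast hk0
    omega
  have hkR : (1 : ℝ) ≤ k := by exact_mod_cast hkn
  refine ⟨k, hkn, fun P hP hPD H hH hPH => ?_⟩
  have h1 := h P hP hPD H hH hPH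
  have e1 : ‖aeval (t : ℂ) P‖ = |aeval t P| := by
    have : aeval (t : ℂ) P = ((aeval t P : ℝ) : ℂ) := by
      rw [← Complex.coe_algebraMap, aeval_algebraMap_apply]
    rw [this, Complex.norm_real, Real.norm_eq_abs]
  rw [e1] at h1
  have hH0 : (0 : ℝ) < H := by linarith
  have h2 : H ^ κ ≤ H ^ k := by
    rw [← Real.rpow_natCast]
    exact Real.rpow_le_rpow_of_exponent_le hH hk1.le
  have h3 : 1 ≤ k * c := by
    rw [div_lt_iff₀ hc] at hk2
    exact hk2.le
  have h4 : (k : ℝ) ≤ (k : ℝ) ^ k := le_self_pow₀ hkR (by omega)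
  rw [inv_le_iff_one_le_mul₀ (by positivity), mul_pow]
  have h5 : 0 ≤ |aeval t P| := abs_nonneg _
  calc (1 : ℝ) ≤ k * c := h3
    _ ≤ k ^ k * (H ^ k * |aeval t P|) := by
        refine mul_le_mul h4 (h1.trans ?_) hc.le (by positivity)
        exact mul_le_mul_of_nonneg_right h2 h5
    _ = _ := by ring

theorem eval_bound {t : ℝ} {E : ℝ} (hE : 1 ≤ E) (ht : |t| ≤ E) {D H : ℕ} (P : ℤ[X])
    (hP : P.natDegree ≤ D) (hH : ∀ j, |P.coeff j| ≤ H) :
    |aeval t P| ≤ (D + 1) * (H * E ^ D) := by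
  rw [aeval_eq_sum_range' (Nat.lt_succ_of_le hP)]
  refine (abs_sum_le_sum_abs _ _).trans ?_
  calc ∑ i ∈ range (D + 1), |P.coeff i • t ^ i| ≤ ∑ _i ∈ range (D + 1), H * E ^ D := by
        refine sum_le_sum fun i hi => ?_
        rw [zsmul_eq_mul, abs_mul, abs_pow]
        have h1 : |(P.coeff i : ℝ)| ≤ H := by exact_mod_cast hH i
        have h2 : |t| ^ i ≤ E ^ D := (pow_le_pow_left₀ (abs_nonneg _) ht i).trans
          (pow_le_pow_right₀ hE (by rw [mem_range] at hi; omega))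
        exact mul_le_mul h1 h2 (by positivity) (by positivity)
    _ = _ := by rw [sum_const, card_range, nsmul_eq_mul]; push_cast; ring

/-- **The exponents are uniformly not extremely close to rational numbers.** -/
theorem uniform_dio {t : ℝ} (ht : MeasT (t : ℂ)) (D : ℕ) : ∃ A : ℕ, ∀ (H : ℕ) (P R : ℤ[X]), 2 ≤ H →
    P.natDegree ≤ D → R.natDegree ≤ D → (∀ j, |P.coeff j| ≤ H) → (∀ j, |R.coeff j| ≤ H) → R ≠ 0 →
    (∀ r : ℚ, aeval t P / aeval t R ≠ (r : ℝ)) →
    |aeval t P / aeval t R| ≤ (H : ℝ) ^ A ∧ DiH A H (aeval t P / aeval t R) := by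
  obtain ⟨k, hk1, hk⟩ := meas_nat ht D
  -- the constant
  set E : ℕ := ⌈|t|⌉₊ + 1 with hE
  have hE1 : (1 : ℝ) ≤ E := by rw [hE]; push_cast; linarith [(Nat.cast_nonneg ⌈|t|⌉₊ : (0 : ℝ) ≤ _)]
  have htE : |t| ≤ E := by rw [hE]; push_cast; linarith [Nat.le_ceil |t|]
  set M : ℕ := (D + 1) * E ^ D with hM
  have hM1 : 1 ≤ M := by
    rw [hM]
    exact Nat.one_le_iff_ne_zero.2 (by positivity)
  set a : ℕ := 1 + M + (k + 1) * k with ha
  set b : ℕ := (a + 2 + k) * k + 2 + M with hb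
  refine ⟨max a (b + 1), fun H P R hH hPD hRD hPH hRH hR hirr => ?_⟩
  have hHR : (2 : ℝ) ≤ H := by exact_mod_cast hH
  have hH1 : (1 : ℝ) ≤ H := by linarith
  have hkH : (k : ℝ) ≤ (H : ℝ) ^ k := by
    exact_mod_cast Nat.lt_two_pow_self.le.trans (Nat.pow_le_pow_left hH k)
  have hMH : (M : ℝ) ≤ (H : ℝ) ^ M := by
    exact_mod_cast Nat.lt_two_pow_self.le.trans (Nat.pow_le_pow_left hH M)
  have hval : ∀ P : ℤ[X], P.natDegree ≤ D → (∀ j, |P.coeff j| ≤ H) → |aeval t P| ≤ (H : ℝ) ^ (1 + M) := by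
    intro P h1 h2
    refine (eval_bound hE1 htE P h1 h2).trans ?_
    calc ((D : ℝ) + 1) * (H * (E : ℝ) ^ D) = H * M := by rw [hM]; push_cast; ring
      _ ≤ H * (H : ℝ) ^ M := by gcongr
      _ = _ := by rw [pow_add, pow_one]
  have hcast : ∀ {P : ℤ[X]}, (∀ j, |P.coeff j| ≤ H) → ∀ j, |(P.coeff j : ℝ)| ≤ (H : ℝ) :=
    fun h j => by exact_mod_cast h j
  have hRlow : ((H : ℝ) ^ ((k + 1) * k))⁻¹ ≤ |aeval t R| := by
    refine le_trans ?_ (hk R hR hRD H hH1 (hcast hRH))
    refine inv_anti₀ (by positivity) ?_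
    rw [pow_mul]
    refine pow_le_pow_left₀ (by positivity) ?_ k
    rw [pow_succ]
    exact mul_le_mul_of_nonneg_right hkH (by positivity)
  have hRpos : 0 < |aeval t R| := lt_of_lt_of_le (by positivity) hRlow
  set x : ℝ := aeval t P / aeval t R with hx
  have hxa : |x| ≤ (H : ℝ) ^ a := by
    rw [hx, abs_div, div_le_iff₀ hRpos]
    calc |aeval t P| ≤ (H : ℝ) ^ (1 + M) := hval P hPD hPH
      _ = (H : ℝ) ^ a * ((H : ℝ) ^ ((k + 1) * k))⁻¹ := by
          rw [ha, pow_add (H : ℝ) (1 + M), mul_assoc, mul_inv_cancel₀ (by positivity), mul_one]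
      _ ≤ _ := by gcongr
  refine ⟨hxa.trans (pow_le_pow_right₀ hH1 (le_max_left _ _)), fun w hw u => ?_⟩
  have hwR : (2 : ℝ) ≤ w := by exact_mod_cast hw
  have hw0 : (0 : ℝ) < w := by linarith
  have hHw : (4 : ℝ) ≤ H * w := by nlinarith
  -- it suffices to have a polynomial bound
  suffices h : (((H : ℝ) * w) ^ b)⁻¹ ≤ |x - u / w| by
    refine le_trans ?_ h
    rw [Real.exp_neg]
    refine inv_anti₀ (by positivity) ?_
    have h1 : (H : ℝ) * w ≤ Real.exp (H * w) := by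
      have := Real.add_one_le_exp ((H : ℝ) * w)
      linarith
    calc ((H : ℝ) * w) ^ b ≤ Real.exp (H * w) ^ b := pow_le_pow_left₀ (by positivity) h1 b
      _ = Real.exp (b * (H * w)) := by rw [← Real.exp_nat_mul]
      _ ≤ Real.exp ((H * w) ^ (b + 1)) := by
          refine Real.exp_le_exp.2 ?_
          rw [pow_succ]
          refine mul_le_mul_of_nonneg_right ?_ (by positivity)
          have h2 : b ≤ (H * w) ^ b := Nat.lt_two_pow_self.le.trans
            (Nat.pow_le_pow_left (by nlinarith) b)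
          exact_mod_cast h2
      _ ≤ _ := Real.exp_le_exp.2 (pow_le_pow_right₀ (by linarith) (le_max_right _ _))
  by_cases hu : |(u : ℝ)| ≤ w * (|x| + 1)
  · -- the polynomial
    set F : ℤ[X] := C (w : ℤ) * P - C u * R with hF
    have hFt : aeval t F = w * aeval t P - u * aeval t R := by
      rw [hF, map_sub, map_mul, map_mul, aeval_C, aeval_C]
      simp
    have hR0 : aeval t R ≠ 0 := abs_pos.1 hRpos
    have hF0 : F ≠ 0 := by
      intro h0
      rw [h0, map_zero] at hFt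
      apply hirr (u / w)
      rw [div_eq_iff hR0]
      push_cast
      field_simp
      linarith
    have hFD : F.natDegree ≤ D := by
      rw [hF]
      refine (natDegree_sub_le _ _).trans (max_le ?_ ?_)
      · exact (natDegree_C_mul_le _ _).trans hPD
      · exact (natDegree_C_mul_le _ _).trans hRD
    have hFc : ∀ j, |(F.coeff j : ℝ)| ≤ w * (H : ℝ) ^ (a + 2) := by
      intro j
      rw [hF, coeff_sub, coeff_C_mul, coeff_C_mul]
      push_cast
      have h1 := hcast hPH j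
      have h2 := hcast hRH j
      have h3 : |(w : ℝ) * (P.coeff j : ℝ) - u * R.coeff j| ≤ w * H + (w * (|x| + 1)) * H := by
        refine (abs_sub _ _).trans (add_le_add ?_ ?_)
        · rw [abs_mul, abs_of_pos hw0]; exact mul_le_mul_of_nonneg_left h1 hw0.le
        · rw [abs_mul]; exact mul_le_mul hu h2 (abs_nonneg _) (by positivity)
      refine h3.trans ?_
      have h4 : (2 : ℝ) ≤ (H : ℝ) ^ a := hHR.trans (le_self_pow₀ hH1 (by rw [ha]; omega))
      have h5 : (H : ℝ) ^ (a + 2) = (H : ℝ) ^ a * H * H := by rw [pow_add]; ring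
      rw [h5]
      have h6 : 1 + (|x| + 1) ≤ (H : ℝ) ^ a * H := by nlinarith
      calc w * H + (w * (|x| + 1)) * H = w * ((1 + (|x| + 1)) * H) := by ring
        _ ≤ w * ((H : ℝ) ^ a * H * H) := by gcongr
    have hlow := hk F hF0 hFD (w * (H : ℝ) ^ (a + 2)) (by
      have : (1 : ℝ) ≤ (H : ℝ) ^ (a + 2) := one_le_pow₀ hH1
      nlinarith) hFc
    have hlow2 : (((H : ℝ) * w) ^ ((a + 2 + k) * k))⁻¹ ≤ |aeval t F| := by
      refine le_trans (inv_anti₀ (by positivity) ?_) hlow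
      rw [pow_mul]
      refine pow_le_pow_left₀ (by positivity) ?_ k
      have h1 : (w : ℝ) ≤ (w : ℝ) ^ (a + 2 + k) := le_self_pow₀ (by linarith) (by omega)
      calc (k : ℝ) * (w * (H : ℝ) ^ (a + 2)) ≤ (H : ℝ) ^ k * (w ^ (a + 2 + k) * (H : ℝ) ^ (a + 2)) := by
            gcongr
        _ = _ := by rw [mul_pow, pow_add (H : ℝ) (a + 2) k]; ring
    have hquot : |x - u / w| = |aeval t F| / (w * |aeval t R|) := by
      rw [hFt, hx]
      have : aeval t P / aeval t R - u / w = (w * aeval t P - u * aeval t R) / (w * aeval t R) := by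
        field_simp
      rw [this, abs_div, abs_mul, abs_of_pos hw0]
    rw [hquot, le_div_iff₀ (by positivity)]
    refine le_trans ?_ hlow2
    have h1 : (w : ℝ) * |aeval t R| ≤ (H * w) ^ (2 + M) := by
      calc (w : ℝ) * |aeval t R| ≤ w * (H : ℝ) ^ (1 + M) := by gcongr; exact hval R hRD hRH
        _ ≤ w ^ (2 + M) * (H : ℝ) ^ (2 + M) :=
            mul_le_mul (le_self_pow₀ (by linarith) (by omega))
              (pow_le_pow_right₀ hH1 (by omega)) (by positivity) (by positivity)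
        _ = _ := by rw [mul_pow]; ring
    calc (((H : ℝ) * w) ^ b)⁻¹ * (w * |aeval t R|) ≤ (((H : ℝ) * w) ^ b)⁻¹ * (H * w) ^ (2 + M) := by
          gcongr
      _ = (((H : ℝ) * w) ^ ((a + 2 + k) * k))⁻¹ := by
          rw [hb, add_assoc, pow_add, mul_inv, mul_assoc, inv_mul_cancel₀ (by positivity), mul_one]
  · push Not at hu
    have h1 : 1 ≤ |x - u / w| := by
      have h2 : |x| + 1 ≤ |(u : ℝ) / w| := by
        have e : |(u : ℝ) / w| = |(u : ℝ)| / w := by rw [abs_div (u : ℝ) w, abs_of_pos hw0]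
        rw [e, le_div_iff₀ hw0]
        linarith
      have h3 : |(u : ℝ) / w| ≤ |x - u / w| + |x| := by
        have : (u : ℝ) / w = -(x - u / w) + x := by ring
        calc |(u : ℝ) / w| = |-(x - u / w) + x| := by rw [← this]
          _ ≤ |-(x - u / w)| + |x| := abs_add_le _ _
          _ = _ := by rw [abs_neg]
      linarith
    exact (inv_le_one_of_one_le₀ (one_le_pow₀ (by linarith))).trans h1

end Pool.Agent.T6.H79.SX
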