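import Pool.Agent.T6.H79.SX.Four
import Pool.Agent.HP778.Count

/-!
# Counting the integers `n ≤ N` with `ξ n ^ s` close to an algebraic number
-/

set_option autoImplicit false

namespace Pool.Agent.T6.H79.SX

open Finset hiding val
open Pool.Agent.R347.LW (RB)

/-- `x` is within `δ` of a nonzero algebraic number which is a root of a nonzero integer polynomial of
degree at most `d` with coefficients of absolute value at most `Q` -/
def Near (d Q : ℕ) (δ x : ℝ) : Prop := ∃ α : ℂ, α ≠ 0 ∧ RB d Q α ∧ ‖(x : ℂ) - α‖ ≤ δ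

/-- not extremely close to rational numbers, with parameters -/
def DiH (A H : ℕ) (s : ℝ) : Prop :=
  ∀ w : ℕ, 2 ≤ w → ∀ u : ℤ, Real.exp (-((H : ℝ) * w) ^ A) ≤ |s - u / w|

theorem dd_bound (d : ℕ) (hd : 1 ≤ d) : (4 * d + 1) ^ (4 * d + 1) ≤ 3200 * (d ^ d) ^ 17 := by
  have h1 : (4 * d + 1) ^ (4 * d + 1) ≤ (5 * d) ^ (5 * d) :=
    (Nat.pow_le_pow_left (by omega) _).trans (Nat.pow_le_pow_right (by omega) (by omega))
  refine h1.trans ?_
  have e1 : (5 * d) ^ (5 * d) = 3125 ^ d * (d ^ d) ^ 5 := by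
    rw [mul_pow, pow_mul 5 5 d, ← pow_mul d d 5, mul_comm 5 d]
    norm_num
  rw [e1]
  have hdd : 1 ≤ d ^ d := Nat.one_le_pow _ _ hd
  rcases Nat.lt_or_ge d 2 with h | h
  · have : d = 1 := by omega
    subst this
    norm_num
  · have h2 : 3125 ^ d ≤ (d ^ d) ^ 12 := by
      calc 3125 ^ d ≤ (2 ^ 12) ^ d := Nat.pow_le_pow_left (by norm_num) d
        _ = (2 ^ d) ^ 12 := by rw [← pow_mul, ← pow_mul, mul_comm]
        _ ≤ (d ^ d) ^ 12 := Nat.pow_le_pow_left (Nat.pow_le_pow_left h d) 12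
    calc 3125 ^ d * (d ^ d) ^ 5 ≤ (d ^ d) ^ 12 * (d ^ d) ^ 5 := Nat.mul_le_mul_right _ h2
      _ = (d ^ d) ^ 17 := by rw [← pow_add]
      _ ≤ 3200 * (d ^ d) ^ 17 := Nat.le_mul_of_pos_left _ (by norm_num)

/-- the scale -/
noncomputable def XX (H N Q d : ℕ) : ℝ := H * (d : ℝ) ^ d * Real.log (N * Q)

open Classical in
/-- **The count at every scale.** -/
theorem scale (A : ℕ) : ∃ κ : ℕ, ∀ (H N Q d : ℕ) (s ξ : ℝ), 1 ≤ H → 2 ≤ N → 2 ≤ Q → 1 ≤ d →
    3200 ≤ XX H N Q d → |s| ≤ (H : ℝ) ^ A → DiH A H s → 0 < ξ →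
    ((Finset.Icc 1 N).filter fun n : ℕ =>
      Near d Q (Real.exp (-(XX H N Q d) ^ κ)) (ξ * (n : ℝ) ^ s)).card ≤ (Nat.log 2 N + 1) ^ 2 := by
  obtain ⟨K, hK⟩ := PB_LL A
  refine ⟨(20 + A) * K, fun H N Q d s ξ hH hN hQ hd hX hs hdio hξ => ?_⟩
  set X := XX H N Q d with hXdef
  set c := 20 + A with hc
  set Y : ℕ := ⌊X ^ c⌋₊ with hY
  have hX1 : (1 : ℝ) ≤ X := by linarith
  have hX0 : (0 : ℝ) ≤ X := by linarith
  have hYX : (Y : ℝ) ≤ X ^ c := Nat.floor_le (by positivity)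
  have hNQ : (4 : ℝ) ≤ N * Q := by
    have h1 : (2 : ℝ) ≤ N := by exact_mod_cast hN
    have h2 : (2 : ℝ) ≤ Q := by exact_mod_cast hQ
    nlinarith
  have hlog : 1 ≤ Real.log (N * Q) := by
    have h1 : Real.log 4 ≤ Real.log (N * Q) := Real.log_le_log (by norm_num) hNQ
    have h2 : Real.log 4 = 2 * Real.log 2 := by
      rw [show (4 : ℝ) = 2 ^ 2 by norm_num, Real.log_pow]; norm_num
    have h3 := Real.log_two_gt_d9
    linarith
  have hdd : (1 : ℝ) ≤ (d : ℝ) ^ d := one_le_pow₀ (by exact_mod_cast hd)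
  have hHR : (1 : ℝ) ≤ H := by exact_mod_cast hH
  have hHX : (H : ℝ) ≤ X := by
    rw [hXdef, XX, mul_assoc]
    refine le_mul_of_one_le_right (by positivity) ?_
    nlinarith
  have hddX : (d : ℝ) ^ d ≤ X := by
    rw [hXdef, XX]
    have h1 : (d : ℝ) ^ d ≤ H * (d : ℝ) ^ d := le_mul_of_one_le_left (by positivity) hHR
    exact h1.trans (le_mul_of_one_le_right (by positivity) hlog)
  have hlogX : Real.log (N * Q) ≤ X := by
    rw [hXdef, XX]
    refine le_mul_of_one_le_left (by linarith) ?_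
    nlinarith
  have hpow : ∀ a b : ℕ, a ≤ b → X ^ a ≤ X ^ b := fun a b h => pow_le_pow_right₀ hX1 h
  have toY : ∀ a : ℕ, (a : ℝ) ≤ X ^ c → a ≤ Y := fun a ha => Nat.le_floor ha
  have hY2 : 2 ≤ Y := toY 2 (by
    have := hpow 1 c (by omega)
    push_cast
    rw [pow_one] at this
    linarith)
  have hHY : H ≤ Y := toY H (by
    have := hpow 1 c (by omega)
    rw [pow_one] at this
    linarith)
  have hsY : |s| ≤ Y := by
    have h1 : H ^ A ≤ Y := toY _ (by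
      push_cast
      exact (pow_le_pow_left₀ (by positivity) hHX A).trans (hpow A c (by omega)))
    refine hs.trans ?_
    exact_mod_cast h1
  have hNp : (0 : ℝ) < N := by exact_mod_cast (by omega : 0 < N)
  have hQp : (0 : ℝ) < Q := by exact_mod_cast (by omega : 0 < Q)
  have hLY : 9 * (Nat.log 2 N + Nat.log 2 Q + 2) ≤ Y := toY _ (by
    have hl : ∀ M : ℕ, 2 ≤ M → (Nat.log 2 M : ℝ) * Real.log 2 ≤ Real.log M := by
      intro M hM
      have h1 : ((2 : ℝ) ^ Nat.log 2 M) ≤ M := by exact_mod_cast Nat.pow_log_le_self 2 (by omega)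
      have h2 := Real.log_le_log (by positivity) h1
      rwa [Real.log_pow] at h2
    have h1 := hl N hN
    have h2 := hl Q hQ
    have h3 := Real.log_two_gt_d9
    have h4 : Real.log (N * Q) = Real.log N + Real.log Q := Real.log_mul hNp.ne' hQp.ne'
    have h5 : (0 : ℝ) ≤ (Nat.log 2 N : ℝ) := Nat.cast_nonneg _
    have h6 : (0 : ℝ) ≤ (Nat.log 2 Q : ℝ) := Nat.cast_nonneg _
    have h7 : ((Nat.log 2 N : ℝ) + (Nat.log 2 Q : ℝ)) * (1 / 2) ≤ X := by
      nlinarith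
    have h8 := hpow 2 c (by omega)
    push_cast
    nlinarith)
  have hdY : (4 * d + 1) ^ (4 * d + 1) ≤ Y := toY _ (by
    have h1 : (((4 * d + 1) ^ (4 * d + 1) : ℕ) : ℝ) ≤ ((3200 * (d ^ d) ^ 17 : ℕ) : ℝ) := by
      exact_mod_cast dd_bound d hd
    refine h1.trans ?_
    push_cast
    calc (3200 : ℝ) * ((d : ℝ) ^ d) ^ 17 ≤ X * X ^ 17 := by gcongr
      _ = X ^ 18 := by ring
      _ ≤ _ := hpow 18 c (by omega))
  have hLL : Real.exp (-X ^ (c * K)) ≤ ((2 : ℝ) ^ LL A Y)⁻¹ := by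
    have h1 : ((LL A Y : ℕ) : ℝ) ≤ X ^ (c * K) := by
      have h2 : ((LL A Y : ℕ) : ℝ) ≤ (Y : ℝ) ^ K := by exact_mod_cast hK Y hY2
      refine h2.trans ?_
      rw [pow_mul]
      exact pow_le_pow_left₀ (by positivity) hYX K
    rw [Real.exp_neg]
    refine inv_anti₀ (by positivity) ?_
    have h2 : (2 : ℝ) ≤ Real.exp 1 := by
      have := Real.add_one_le_exp (1 : ℝ)
      linarith
    calc (2 : ℝ) ^ LL A Y ≤ Real.exp 1 ^ LL A Y := pow_le_pow_left₀ (by norm_num) h2 _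
      _ = Real.exp (LL A Y) := by rw [← Real.exp_nat_mul, mul_one]
      _ ≤ _ := Real.exp_le_exp.2 h1
  set S := (Finset.Icc 1 N).filter fun n : ℕ =>
      Near d Q (Real.exp (-X ^ (c * K))) (ξ * (n : ℝ) ^ s) with hS
  rcases S.eq_empty_or_nonempty with h0 | ⟨n₀, hn₀⟩
  · rw [h0, Finset.card_empty]
    exact Nat.zero_le _
  have hmem : ∀ n ∈ S, (1 ≤ n ∧ n ≤ N) ∧ Near d Q (Real.exp (-X ^ (c * K))) (ξ * (n : ℝ) ^ s) :=
    fun n hn => ⟨Finset.mem_Icc.mp (Finset.mem_filter.mp hn).1, (Finset.mem_filter.mp hn).2⟩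
  refine Pool.Agent.HP778.count (N := N) S (fun n hn => (hmem n hn).1) n₀ (hmem n₀ hn₀).1.2 ?_
  intro m n hn hli
  by_contra hm
  push Not at hm
  have hm3 : 3 ≤ m := hm
  set n' : Fin 3 → ℕ := fun i => n (Fin.castLE hm3 i) with hn'
  have hli' := hli.comp (Fin.castLE hm3) (Fin.castLE_injective hm3)
  choose α hα0 hα1 hα2 using fun i : Fin 3 => (hmem _ (hn (Fin.castLE hm3 i))).2
  obtain ⟨α₀, hα₀0, hα₀1, hα₀2⟩ := (hmem n₀ hn₀).2
  obtain ⟨e, he0, he⟩ := four A Y H N Q d s ξ hY2 hH hHY hsY (by omega) hLY hdY hdio hξ n₀ n'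
    (hmem n₀ hn₀).1 (fun i => (hmem _ (hn (Fin.castLE hm3 i))).1) α₀ α hα₀1 hα₀0 hα1 _ hLL hα₀2 hα2
  rw [Fintype.linearIndependent_iff] at hli'
  have h1 := hli' (fun i => (e i : ℚ)) (by
    have h2 : ((∑ i, (e i : ℝ) * (Real.log (n' i) - Real.log n₀) : ℝ) : ℂ) = 0 := by
      rw [he]; simp
    rw [← h2]
    push_cast
    refine Finset.sum_congr rfl fun i _ => ?_
    rw [Rat.smul_def]
    simp [hn'])
  apply he0
  funext i
  have := h1 i
  exact_mod_cast this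

end Pool.Agent.T6.H79.SX
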